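import Pool.Agent.L5helper51.WK.Tree
import Pool.Agent.L5helper51.WG.App

/-!
# Approximators for cliques with `c + 1` vertices, against colourings with `c` colours
-/

namespace Pool.Agent.L5helper51.WK

open Finset
open Pool.Agent.L5helper51.WG (quant base_le_quant quant_spec le_quant)

variable {U : Type*} [Fintype U] [DecidableEq U]

omit [Fintype U] [DecidableEq U] in
theorem mem_fil2 {α : Type*} {P : α → Prop} {inst : DecidablePred P} {s : Finset α} {a : α} :
    a ∈ @Finset.filter α P inst s ↔ a ∈ s ∧ P a := Finset.mem_filter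

/-- `T` is a clique in `X` -/
def Cq (X : Finset (U × U)) (T : Finset U) : Prop := ∀ a ∈ T, ∀ b ∈ T, a ≠ b → (a, b) ∈ X

instance (X : Finset (U × U)) (T : Finset U) : Decidable (Cq X T) := by
  unfold Cq
  infer_instance

/-- the pairs of different elements of `S` -/
def cl (S : Finset U) : Finset (U × U) := {p | p.1 ∈ S ∧ p.2 ∈ S ∧ p.1 ≠ p.2}

theorem mem_cl {S : Finset U} {a b : U} : (a, b) ∈ cl S ↔ a ∈ S ∧ b ∈ S ∧ a ≠ b := by
  simp [cl]

/-- the pairs separated by a colouring -/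
def sepX {c : ℕ} (χ : U → Fin c) : Finset (U × U) := {p | χ p.1 ≠ χ p.2}

omit [DecidableEq U] in
theorem mem_sepX {c : ℕ} {χ : U → Fin c} {a b : U} : (a, b) ∈ sepX χ ↔ χ a ≠ χ b := by
  simp [sepX]

omit [DecidableEq U] in
theorem cq_sepX {c : ℕ} {χ : U → Fin c} {T : Finset U} : Cq (sepX χ) T ↔ Set.InjOn χ T := by
  constructor
  · intro h a ha b hb hab
    by_contra hne
    exact mem_sepX.1 (h a ha b hb hne) hab
  · intro h a ha b hb hne
    rw [mem_sepX]
    exact fun hab => hne (h ha hb hab)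

theorem cq_cl {S T : Finset U} (h : T ⊆ S) : Cq (cl S) T := fun _ ha _ hb hne =>
  mem_cl.2 ⟨h ha, h hb, hne⟩

/-- An approximator: a value for each set of vertices. -/
abbrev App (U : Type*) := Finset U → ℝ

/-- the sets which count -/
def cand (c : ℕ) (X : Finset (U × U)) : Finset (Finset U) := {T | #T ≤ c ∧ Cq X T}

theorem mem_cand {c : ℕ} {X : Finset (U × U)} {T : Finset U} :
    T ∈ cand c X ↔ #T ≤ c ∧ Cq X T := by
  simp [cand]

theorem cand_nonempty (c : ℕ) (X : Finset (U × U)) : (cand c X).Nonempty :=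
  ⟨∅, mem_cand.2 ⟨by simp, by intro a ha; simp at ha⟩⟩

/-- the value of an approximator on a set of present pairs -/
noncomputable def ev (c : ℕ) (A : App U) (X : Finset (U × U)) : ℝ :=
  (cand c X).sup' (cand_nonempty c X) A

theorem le_ev {c : ℕ} (A : App U) {X : Finset (U × U)} {T : Finset U} (h1 : #T ≤ c)
    (h2 : Cq X T) : A T ≤ ev c A X :=
  le_sup' A (mem_cand.2 ⟨h1, h2⟩)

theorem ev_le {c : ℕ} (A : App U) {X : Finset (U × U)} {x : ℝ}
    (h : ∀ T, #T ≤ c → Cq X T → A T ≤ x) : ev c A X ≤ x := by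
  apply sup'_le
  intro T hT
  rw [mem_cand] at hT
  exact h T hT.1 hT.2

/-- active sets -/
def Active (A : App U) (T : Finset U) : Prop := ∀ T' ⊂ T, A T' < A T

theorem exists_active (c : ℕ) (A : App U) (X : Finset (U × U)) :
    ∃ T, #T ≤ c ∧ Cq X T ∧ A T = ev c A X ∧ Active A T := by
  obtain ⟨T0, hT0, h0⟩ := exists_mem_eq_sup' (cand_nonempty c X) A
  obtain ⟨T, hT, hmin⟩ := exists_min_image ((cand c X).filter (fun T => A T = ev c A X))
    (fun T => #T) ⟨T0, mem_filter.2 ⟨hT0, h0.symm⟩⟩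
  rw [mem_filter, mem_cand] at hT
  refine ⟨T, hT.1.1, hT.1.2, hT.2, ?_⟩
  intro T' hT'
  have h1 : #T' ≤ c := (card_le_card hT'.1).trans hT.1.1
  have h2 : Cq X T' := fun a ha b hb hne => hT.1.2 a (hT'.1 ha) b (hT'.1 hb) hne
  have h3 := le_ev A h1 h2
  rw [← hT.2] at h3
  rcases h3.lt_or_eq with h3 | h3
  · exact h3
  · exfalso
    have h4 := hmin T' (mem_filter.2 ⟨mem_cand.2 ⟨h1, h2⟩, by rw [h3, hT.2]⟩)
    exact absurd (card_lt_card hT') (not_lt.2 h4)

variable {c L : ℕ}

/-- the colourings which are injective on `T` -/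
def rb (c : ℕ) (T : Finset U) : Finset (U → Fin c) := {χ | Cq (sepX χ) T}

theorem mem_rb {T : Finset U} {χ : U → Fin c} : χ ∈ rb c T ↔ Cq (sepX χ) T := by simp [rb]

/-- the basic tolerance -/
def del (c : ℕ) (U : Type*) [Fintype U] (L : ℕ) : ℕ :=
  (c ^ (c + 1) - 1) ^ L * c ^ Fintype.card U / (c ^ (c + 1)) ^ L

/-- the tolerances -/
def dd (c : ℕ) (U : Type*) [Fintype U] (L i : ℕ) : ℕ := (L + 1) ^ (c + 1 - i) * del c U L

omit [DecidableEq U] in
theorem dd_anti {i j : ℕ} (h : i ≤ j) : dd c U L j ≤ dd c U L i :=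
  Nat.mul_le_mul_right _ (Nat.pow_le_pow_right (by omega) (by omega))

omit [DecidableEq U] in
theorem del_le (i : ℕ) : del c U L ≤ dd c U L i := by
  rw [dd]
  exact Nat.le_mul_of_pos_left _ (by positivity)

omit [DecidableEq U] in
theorem dd_succ {i : ℕ} (h : i ≤ c) : del c U L + L * dd c U L (i + 1) ≤ dd c U L i := by
  have h1 : dd c U L i = (L + 1) * dd c U L (i + 1) := by
    rw [dd, dd, show c + 1 - i = (c + 1 - (i + 1)) + 1 by omega, pow_succ]
    ring
  have h2 := del_le (U := U) (c := c) (L := L) (i + 1)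
  rw [h1]
  linarith

/-- a lower bound of a function -/
noncomputable def bot0 (h : (U → Fin c) → ℝ) : ℝ := -∑ χ, |h χ|

theorem bot0_le (h : (U → Fin c) → ℝ) (χ : U → Fin c) : bot0 h ≤ h χ := by
  have h1 : |h χ| ≤ ∑ χ, |h χ| := single_le_sum (f := fun χ => |h χ|)
    (fun i _ => abs_nonneg _) (mem_univ χ)
  have h2 := neg_abs_le (h χ)
  rw [bot0]
  linarith

/-- The approximator of a function of the colouring. -/
noncomputable def mk (L : ℕ) (h : (U → Fin c) → ℝ) : App U := fun T =>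
  quant (rb c T) h (dd c U L #T) (bot0 h)

theorem low_le (h : (U → Fin c) → ℝ) (T : Finset U) :
    #{χ ∈ rb c T | h χ < mk L h T} ≤ dd c U L #T := by
  rcases quant_spec (rb c T) h (dd c U L #T) (bot0 h) with h1 | h1
  · have h2 : ({χ ∈ rb c T | h χ < mk L h T} : Finset _) = ∅ := by
      apply filter_false_of_mem
      intro χ _
      rw [mk, h1]
      exact not_lt.2 (bot0_le h χ)
    rw [h2]
    simp
  · exact h1

/-- The assumption on the parameters. -/
def Par (c : ℕ) (U : Type*) [Fintype U] (L : ℕ) : Prop :=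
  (L + 1) ^ (c + 1) * del c U L * c ^ c < c ^ Fintype.card U

theorem dd_lt (hc : 1 ≤ c) (hP : Par c U L) {T : Finset U} (hT : #T ≤ c) :
    dd c U L #T < #(rb c T) := by
  have : Nonempty (Fin c) := ⟨⟨0, hc⟩⟩
  have h1 : c ^ Fintype.card U ≤ c ^ c * #(rb c T) := by
    have h2 : ∀ χ : U → Fin c, ∃ χ' : U → Fin c, (∀ v ∉ T, χ' v = χ v) ∧ Set.InjOn χ' T := by
      intro χ
      obtain ⟨χ', h3, h4⟩ := exists_ext' χ ∅ T (by simp) (by simp)
        (by rw [Fintype.card_fin]; exact hT)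
      exact ⟨χ', fun v hv => h3 v (by simpa using hv), h4⟩
    choose f hf1 hf2 using h2
    have h3 : #(univ : Finset (U → Fin c)) ≤ c ^ c * #(rb c T) := by
      apply card_le_mul_card_image_of_maps_to (f := f)
      · intro χ _
        rw [mem_rb, cq_sepX]
        exact hf2 χ
      · intro χ' _
        have h5 : #(univ : Finset (T → Fin c)) ≤ c ^ c := by
          rw [card_univ, Fintype.card_fun, Fintype.card_coe, Fintype.card_fin]
          exact Nat.pow_le_pow_right hc hT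
        refine le_trans (card_le_card_of_injOn (fun χ => fun v : T => χ v)
          (fun _ _ => mem_univ _) ?_) h5
        intro χ hχ ψ hψ h
        simp only [coe_filter, mem_univ, true_and, Set.mem_ofPred_eq] at hχ hψ
        funext v
        by_cases h6 : v ∈ T
        · exact congrFun h ⟨v, h6⟩
        · rw [← hf1 χ v h6, ← hf1 ψ v h6, hχ, hψ]
    rwa [card_univ, Fintype.card_fun, Fintype.card_fin] at h3
  by_contra hcon
  push Not at hcon
  have h2 : #(rb c T) ≤ (L + 1) ^ (c + 1) * del c U L :=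
    hcon.trans (Nat.mul_le_mul_right _ (Nat.pow_le_pow_right (by omega) (by omega)))
  have h3 : c ^ c * #(rb c T) ≤ (L + 1) ^ (c + 1) * del c U L * c ^ c := by
    rw [mul_comm]
    exact Nat.mul_le_mul_right _ h2
  exact absurd (h1.trans h3) (not_le.2 hP)

/-- The main tool: a value above the value of the core is exceeded often. -/
theorem lt_card (hc : 1 ≤ c) (hP : Par c U L) (h : (U → Fin c) → ℝ) {T : Finset U} (hT : #T ≤ c)
    {t : ℝ} (ht : mk L h T < t) : dd c U L #T < #{χ ∈ rb c T | h χ < t} := by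
  by_contra hcon
  push Not at hcon
  exact absurd (le_quant (b0 := bot0 h) hcon (dd_lt hc hP hT)) (not_le.2 ht)

theorem count_le_del (hc : 1 ≤ c) {ι : Type*} [DecidableEq ι]
    (D : ι → Finset U) (I : Finset ι) (hI : #I = L)
    (R : (U → Fin c) → Prop) (P : ι → (U → Fin c) → Prop) (fix : ι → (U → Fin c) → (U → Fin c))
    [DecidablePred R] [∀ i, DecidablePred (P i)]
    (hD : ∀ i ∈ I, #(D i) ≤ c + 1)
    (h1 : ∀ i ∈ I, ∀ χ, R χ → P i (fix i χ))
    (h2 : ∀ i ∈ I, ∀ χ, R χ → ∀ v ∉ D i, fix i χ v = χ v)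
    (h3 : ∀ i ∈ I, ∀ χ, R χ → R (fix i χ))
    (h4 : ∀ i ∈ I, ∀ j ∈ I, i ≠ j → ∀ χ, R χ → P i (fix j χ) → P i χ) :
    #{χ : U → Fin c | R χ ∧ ∀ i ∈ I, ¬ P i χ} ≤ del c U L := by
  have : Nonempty (Fin c) := ⟨⟨0, hc⟩⟩
  have h5 := count_pat D (c + 1) I R P fix hD h1 h2 h3 h4
  rw [Fintype.card_fin, hI] at h5
  rw [del, Nat.le_div_iff_mul_le (by positivity), mul_comm]
  exact h5

open Classical in
/-- The active sets of an approximator are few. -/
theorem act_cores (hc : 1 ≤ c) (hL : 1 ≤ L) (hP : Par c U L) (h : (U → Fin c) → ℝ) :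
    ∃ Z : Finset (Finset U), #Z ≤ ((c + 1) * L + 1) ^ (c + 1) ∧ (∀ C ∈ Z, #C ≤ c + 1) ∧
      ∀ T, #T ≤ c → Active (mk L h) T → T ∈ Z := by
  obtain ⟨Z, h1, h2, h3⟩ := cores ({T : Finset U | #T ≤ c ∧ Active (mk L h) T} : Finset _)
    (fun S C => C = S) (c + 1) L (by
      intro S hS
      rw [mem_filter] at hS
      exact hS.2.1.trans (Nat.le_succ _)) (fun _ _ => rfl) (by
      intro C M hM hMC hdis
      by_contra hcon
      obtain ⟨J, hJM, hJ⟩ := exists_subset_card_eq (not_lt.1 hcon)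
      have hact : ∀ S ∈ J, #S ≤ c ∧ Active (mk L h) S := fun S hS =>
        (mem_filter.1 (hM (hJM hS))).2
      have hCS : ∀ S ∈ J, C ⊂ S := fun S hS =>
        (hMC S (hJM hS)).1.ssubset_of_ne (hMC S (hJM hS)).2
      obtain ⟨S0, hS0, hmin⟩ := exists_min_image J (mk L h) (card_pos.1 (by omega))
      have hCc : #C < c := lt_of_lt_of_le (card_lt_card (hCS S0 hS0)) (hact S0 hS0).1
      have hlt : mk L h C < mk L h S0 := (hact S0 hS0).2 C (hCS S0 hS0)
      have hbig := lt_card hc hP h hCc.le hlt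
      set E1 : Finset (U → Fin c) := {χ | Cq (sepX χ) C ∧ ∀ S ∈ J, ¬ Cq (sepX χ) S} with hE1
      set E2 : Finset (U → Fin c) := J.biUnion (fun S => {χ ∈ rb c S | h χ < mk L h S}) with hE2
      have hsub : ({χ ∈ rb c C | h χ < mk L h S0} : Finset _) ⊆ E1 ∪ E2 := by
        intro χ hχ
        rw [mem_filter, mem_rb] at hχ
        rw [mem_union]
        by_cases h4 : ∀ S ∈ J, ¬ Cq (sepX χ) S
        · left
          rw [hE1, mem_filter]
          exact ⟨mem_univ _, hχ.1, h4⟩
        · right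
          push Not at h4
          obtain ⟨S, hS, h5⟩ := h4
          rw [hE2, mem_biUnion]
          exact ⟨S, hS, mem_filter.2 ⟨mem_rb.2 h5, lt_of_lt_of_le hχ.2 (hmin S hS)⟩⟩
      have hfix : ∀ S : Finset U, ∀ χ : U → Fin c, ∃ χ' : U → Fin c, S ∈ J → Cq (sepX χ) C →
          (∀ v ∉ S \ C, χ' v = χ v) ∧ Set.InjOn χ' S := by
        intro S χ
        by_cases h4 : S ∈ J ∧ Cq (sepX χ) C
        · obtain ⟨χ', h5, h6⟩ := exists_ext' χ C S (cq_sepX.1 h4.2) (hCS S h4.1).1
            (by rw [Fintype.card_fin]; exact (hact S h4.1).1)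
          exact ⟨χ', fun _ _ => ⟨h5, h6⟩⟩
        · exact ⟨χ, fun h5 h6 => absurd ⟨h5, h6⟩ h4⟩
      choose fix hfx using hfix
      have c1 : #E1 ≤ del c U L := by
        refine le_trans (card_le_card ?_) (count_le_del hc (fun S => S \ C) J hJ
          (fun χ => Cq (sepX χ) C) (fun S χ => Cq (sepX χ) S) fix ?_ ?_ ?_ ?_ ?_)
        · intro χ hχ
          rw [hE1, mem_filter] at hχ
          exact mem_fil2.2 hχ
        · intro S hS
          exact (card_le_card sdiff_subset).trans ((hact S hS).1.trans (Nat.le_succ _))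
        · intro S hS χ hR
          exact cq_sepX.2 (hfx S χ hS hR).2
        · intro S hS χ hR
          exact (hfx S χ hS hR).1
        · intro S hS χ hR
          rw [cq_sepX] at hR ⊢
          intro a ha b hb hab
          rw [(hfx S χ hS (cq_sepX.2 hR)).1 a (fun h5 => (mem_sdiff.1 h5).2 ha),
            (hfx S χ hS (cq_sepX.2 hR)).1 b (fun h5 => (mem_sdiff.1 h5).2 hb)] at hab
          exact hR ha hb hab
        · intro S hS S' hS' hne χ hR hP'
          have h6 : ∀ v ∈ S, fix S' χ v = χ v := by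
            intro v hv
            apply (hfx S' χ hS' hR).1
            intro h7
            have h8 := hdis S (hJM hS) S' (hJM hS') hne
            rw [disjoint_left] at h8
            exact h8 (mem_sdiff.2 ⟨hv, (mem_sdiff.1 h7).2⟩) h7
          rw [cq_sepX] at hP' ⊢
          intro a ha b hb hab
          apply hP' ha hb
          rw [h6 a ha, h6 b hb, hab]
      have c2 : #E2 ≤ L * dd c U L (#C + 1) := by
        refine card_biUnion_le.trans ?_
        calc _ ≤ ∑ _S ∈ J, dd c U L (#C + 1) := by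
              apply sum_le_sum
              intro S hS
              exact (low_le h S).trans (dd_anti (card_lt_card (hCS S hS)))
          _ = _ := by rw [sum_const, smul_eq_mul, hJ]
      have c3 := (card_le_card hsub).trans (card_union_le _ _)
      have c4 := dd_succ (U := U) (L := L) hCc.le
      omega)
  refine ⟨Z, h1, h2, fun T hT hA => ?_⟩
  obtain ⟨C, hC, _, h4⟩ := h3 T (mem_filter.2 ⟨mem_univ _, hT, hA⟩)
  rwa [← h4]

open Classical in
/-- Few colourings are bad. -/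
theorem card_bad (hc : 1 ≤ c) (hL : 1 ≤ L) (hP : Par c U L) (h : (U → Fin c) → ℝ) :
    #{χ : U → Fin c | h χ < ev c (mk L h) (sepX χ)} ≤
      ((c + 1) * L + 1) ^ (c + 1) * dd c U L 0 := by
  obtain ⟨Z, h1, _, h3⟩ := act_cores hc hL hP h
  have hsub : ({χ : U → Fin c | h χ < ev c (mk L h) (sepX χ)} : Finset _) ⊆
      Z.biUnion (fun T => {χ ∈ rb c T | h χ < mk L h T}) := by
    intro χ hχ
    rw [mem_filter] at hχ
    obtain ⟨T, hT, hcq, hev, hact⟩ := exists_active c (mk L h) (sepX χ)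
    rw [mem_biUnion]
    exact ⟨T, h3 T hT hact, mem_filter.2 ⟨mem_rb.2 hcq, by rw [hev]; exact hχ.2⟩⟩
  calc _ ≤ ∑ _T ∈ Z, dd c U L 0 :=
        (card_le_card hsub).trans (card_biUnion_le.trans (sum_le_sum (fun T _ =>
          (low_le h T).trans (dd_anti (Nat.zero_le _)))))
    _ = #Z * dd c U L 0 := by rw [sum_const, smul_eq_mul]
    _ ≤ _ := Nat.mul_le_mul_right _ h1

open Classical in
/-- The missing pairs of the lost cliques are in few sets. -/
theorem lost_cores (hc : 1 ≤ c) (hL : 1 ≤ L) (hP : Par c U L) (h : (U → Fin c) → ℝ)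
    (E : Finset (U × U)) (hE : ∀ a b, (a, b) ∈ E → (b, a) ∈ E)
    (F : Finset (Finset U)) (hF : ∀ S ∈ F, #S = c + 1 ∧ ∃ t, (∀ T ⊂ S, mk L h T < t) ∧
      ∀ χ : U → Fin c, (∀ a ∈ S, ∀ b ∈ S, a ≠ b → (a, b) ∈ E → χ a ≠ χ b) → t ≤ h χ) :
    ∃ Z : Finset (Finset U), #Z ≤ ((c + 1) * L + 1) ^ (c + 1) ∧ (∀ C ∈ Z, #C ≤ c + 1) ∧
      ∀ S ∈ F, ∃ C ∈ Z, ∀ a ∈ S, ∀ b ∈ S, a ≠ b → (a, b) ∉ E → a ∈ C ∧ b ∈ C := by
  obtain ⟨Z, h1, h2, h3⟩ := cores F
    (fun S C => ∀ a ∈ S, ∀ b ∈ S, a ≠ b → (a, b) ∉ E → a ∈ C ∧ b ∈ C) (c + 1) L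
    (fun S hS => (hF S hS).1.le) (fun S _ a ha b hb _ _ => ⟨ha, hb⟩) (by
      intro C M hM hMC hdis
      by_contra hcon
      obtain ⟨J, hJM, hJ⟩ := exists_subset_card_eq (not_lt.1 hcon)
      have hcard : ∀ S ∈ J, #S = c + 1 := fun S hS => (hF S (hM (hJM hS))).1
      have hpair : ∀ S ∈ J, ∃ a ∈ S, ∃ b ∈ S, a ≠ b ∧ (a, b) ∉ E ∧ ¬ (a ∈ C ∧ b ∈ C) := by
        intro S hS
        have h4 := (hMC S (hJM hS)).2
        push Not at h4
        obtain ⟨a, ha, b, hb, hab, h5, h6⟩ := h4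
        exact ⟨a, ha, b, hb, hab, h5, fun h7 => h6 h7.1 h7.2⟩
      have hCS : ∀ S ∈ J, C ⊂ S := by
        intro S hS
        refine (hMC S (hJM hS)).1.ssubset_of_ne ?_
        rintro rfl
        obtain ⟨a, ha, b, hb, _, _, h6⟩ := hpair C hS
        exact h6 ⟨ha, hb⟩
      choose! t ht1 ht2 using fun S hS => (hF S hS).2
      obtain ⟨S0, hS0, hmin⟩ := exists_min_image J t (card_pos.1 (by omega))
      have hCc : #C ≤ c := by
        have h5 := card_lt_card (hCS S0 hS0)
        have h6 := hcard S0 hS0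
        omega
      have hlt : mk L h C < t S0 := ht1 S0 (hM (hJM hS0)) C (hCS S0 hS0)
      have hbig := lt_card hc hP h hCc hlt
      set P : Finset U → (U → Fin c) → Prop := fun S χ =>
        ∀ a ∈ S, ∀ b ∈ S, a ≠ b → (a, b) ∈ E → χ a ≠ χ b with hPdef
      have hsub : ({χ ∈ rb c C | h χ < t S0} : Finset _) ⊆
          ({χ | Cq (sepX χ) C ∧ ∀ S ∈ J, ¬ P S χ} : Finset (U → Fin c)) := by
        intro χ hχ
        rw [mem_filter, mem_rb] at hχ
        rw [mem_filter]
        refine ⟨mem_univ _, hχ.1, fun S hS hPS => ?_⟩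
        exact absurd ((hmin S hS).trans (ht2 S (hM (hJM hS)) χ hPS)) (not_le.2 hχ.2)
      have hfix : ∀ S : Finset U, ∀ χ : U → Fin c, ∃ χ' : U → Fin c, S ∈ J → Cq (sepX χ) C →
          (∀ v ∉ S \ C, χ' v = χ v) ∧ P S χ' := by
        intro S χ
        by_cases h4 : S ∈ J ∧ Cq (sepX χ) C
        · obtain ⟨a, ha, b, hb, hab, habE, habC⟩ := hpair S h4.1
          obtain ⟨χ', h5, h6⟩ := exists_pat χ C S (cq_sepX.1 h4.2) (hCS S h4.1).1
            (by rw [Fintype.card_fin]; exact hcard S h4.1) ha hb hab habC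
          refine ⟨χ', fun _ _ => ⟨h5, ?_⟩⟩
          intro x hx y hy hxy hxyE heq
          rcases h6 x hx y hy hxy heq with ⟨rfl, rfl⟩ | ⟨rfl, rfl⟩
          · exact habE hxyE
          · exact habE (hE _ _ hxyE)
        · exact ⟨χ, fun h5 h6 => absurd ⟨h5, h6⟩ h4⟩
      choose fix hfx using hfix
      have c1 : #({χ | Cq (sepX χ) C ∧ ∀ S ∈ J, ¬ P S χ} : Finset (U → Fin c)) ≤ del c U L := by
        refine le_trans (card_le_card ?_) (count_le_del hc (fun S => S \ C) J hJ
          (fun χ => Cq (sepX χ) C) P fix ?_ ?_ ?_ ?_ ?_)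
        · intro χ hχ
          exact mem_fil2.2 (mem_fil2.1 hχ)
        · intro S hS
          exact (card_le_card sdiff_subset).trans (hcard S hS).le
        · intro S hS χ hR
          exact (hfx S χ hS hR).2
        · intro S hS χ hR
          exact (hfx S χ hS hR).1
        · intro S hS χ hR
          rw [cq_sepX] at hR ⊢
          intro a ha b hb hab
          rw [(hfx S χ hS (cq_sepX.2 hR)).1 a (fun h5 => (mem_sdiff.1 h5).2 ha),
            (hfx S χ hS (cq_sepX.2 hR)).1 b (fun h5 => (mem_sdiff.1 h5).2 hb)] at hab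
          exact hR ha hb hab
        · intro S hS S' hS' hne χ hR hP'
          have h6 : ∀ v ∈ S, fix S' χ v = χ v := by
            intro v hv
            apply (hfx S' χ hS' hR).1
            intro h7
            have h8 := hdis S (hJM hS) S' (hJM hS') hne
            rw [disjoint_left] at h8
            exact h8 (mem_sdiff.2 ⟨hv, (mem_sdiff.1 h7).2⟩) h7
          intro a ha b hb hab habE heq
          apply hP' a ha b hb hab habE
          rw [h6 a ha, h6 b hb, heq]
      have c2 := card_le_card hsub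
      have c3 := del_le (U := U) (c := c) (L := L) #C
      omega)
  refine ⟨Z, h1, h2, fun S hS => ?_⟩
  obtain ⟨C, hC, _, h4⟩ := h3 S hS
  exact ⟨C, hC, h4⟩

end Pool.Agent.L5helper51.WK
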