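import Pool.Agent.L5helper51.WK.Num
import Pool.Agent.L5helper51.WG.Chain

/-!
# Clique detection by probabilistic algorithms with wide nondecreasing instructions
-/

namespace Pool.Agent.L5helper51.WK

open Finset
open Pool.Agent.L5helper51.WG (Mem Ins Alg rd xin execs execs_nil gr SI Low gr_adj low_gr
  count_idx)

variable {N c : ℕ} {K : Type}

open Classical in
/-- The input for a graph: each entry is a constant or tells whether a pair is an edge. -/
noncomputable def inp (lab0 : K → (Fin N × Fin N) ⊕ ℝ) (G : SimpleGraph (Fin N)) (k : K) : ℝ :=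
  match lab0 k with
  | .inl p => if G.Adj p.1 p.2 then 1 else 0
  | .inr x => x

open Classical in
/-- the labels of the entries -/
noncomputable def labB (lab0 : K → (Fin N × Fin N) ⊕ ℝ) (B : SimpleGraph (Fin N)) (n i : ℕ)
    (k : K) : (Fin n × Fin n) ⊕ ℝ :=
  match lab0 k with
  | .inl p =>
    if h : (i * n ≤ p.1.val ∧ p.1.val < i * n + n) ∧ (i * n ≤ p.2.val ∧ p.2.val < i * n + n) then
      .inl (⟨p.1.val - i * n, by omega⟩, ⟨p.2.val - i * n, by omega⟩)
    else .inr (if B.Adj p.1 p.2 then 1 else 0)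
  | .inr x => .inr x

theorem si_sepX {n : ℕ} (χ : Fin n → Fin c) : SI (sepX χ) := by
  refine ⟨fun a b h => ?_, fun a h => ?_⟩
  · rw [mem_sepX] at h ⊢
    exact h.symm
  · rw [mem_sepX] at h
    exact h rfl

theorem si_cl {n : ℕ} (S : Finset (Fin n)) : SI (cl S) := by
  refine ⟨fun a b h => ?_, fun a h => ?_⟩
  · rw [mem_cl] at h ⊢
    exact ⟨h.2.1, h.1, h.2.2.symm⟩
  · rw [mem_cl] at h
    exact h.2.2 rfl

theorem inp_gr (lab0 : K → (Fin N × Fin N) ⊕ ℝ) {B : SimpleGraph (Fin N)} {n i : ℕ}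
    {X : Finset (Fin n × Fin n)} (hX : SI X) (hB : Low B (i * n)) :
    inp lab0 (gr B n i X) = xin (labB lab0 B n i) X := by
  classical
  funext k
  rw [inp, xin, labB]
  generalize lab0 k = s
  rcases s with ⟨u, v⟩ | x
  · simp only
    by_cases h : (i * n ≤ u.val ∧ u.val < i * n + n) ∧ (i * n ≤ v.val ∧ v.val < i * n + n)
    · rw [dif_pos h]
      simp only
      have h1 : (gr B n i X).Adj u v ↔ ((⟨u.val - i * n, by omega⟩, ⟨v.val - i * n, by omega⟩) :
          Fin n × Fin n) ∈ X := by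
        rw [gr_adj hX]
        constructor
        · rintro (h2 | ⟨a, b, hab, h2, h3⟩)
          · exact absurd (hB u v h2) (by omega)
          · have e1 : (⟨u.val - i * n, by omega⟩ : Fin n) = a := Fin.ext (by simp; omega)
            have e2 : (⟨v.val - i * n, by omega⟩ : Fin n) = b := Fin.ext (by simp; omega)
            rw [e1, e2]
            exact hab
        · intro h2
          exact Or.inr ⟨_, _, h2, by simp; omega, by simp; omega⟩
      by_cases h2 : (gr B n i X).Adj u v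
      · rw [if_pos h2, if_pos (h1.1 h2)]
      · rw [if_neg h2, if_neg (fun h3 => h2 (h1.2 h3))]
    · rw [dif_neg h]
      simp only
      have h1 : (gr B n i X).Adj u v ↔ B.Adj u v := by
        rw [gr_adj hX]
        refine ⟨?_, Or.inl⟩
        rintro (h2 | ⟨a, b, _, h2, h3⟩)
        · exact h2
        · exfalso
          apply h
          have := a.isLt
          have := b.isLt
          omega
      by_cases h2 : (gr B n i X).Adj u v
      · rw [if_pos h2, if_pos (h1.1 h2)]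
      · rw [if_neg h2, if_neg (fun h3 => h2 (h1.2 h3))]
  · rfl

theorem le_gr (lab0 : K → (Fin N × Fin N) ⊕ ℝ) {B : SimpleGraph (Fin N)} {n i : ℕ}
    {X : Finset (Fin n × Fin n)} : inp lab0 B ≤ inp lab0 (gr B n i X) := by
  classical
  intro k
  rw [inp, inp]
  generalize lab0 k = s
  rcases s with p | x
  · simp only
    by_cases h : B.Adj p.1 p.2
    · have h1 : (gr B n i X).Adj p.1 p.2 := by
        rw [gr, SimpleGraph.sup_adj]
        exact Or.inl h
      rw [if_pos h, if_pos h1]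
    · rw [if_neg h]
      split_ifs <;> norm_num
  · exact le_rfl

/-- `c`-colourable -/
def Col (c : ℕ) (B : SimpleGraph (Fin N)) : Prop :=
  ∃ f : Fin N → Fin c, ∀ u v, B.Adj u v → f u ≠ f v

theorem Col.cliqueFree {B : SimpleGraph (Fin N)} (h : Col c B) : B.CliqueFree (c + 1) := by
  obtain ⟨f, hf⟩ := h
  have h1 : B.Colorable c := ⟨⟨f, fun {a b} hab => hf a b hab⟩⟩
  exact h1.cliqueFree (Nat.lt_succ_self c)

theorem col_gr {B : SimpleGraph (Fin N)} {n i : ℕ} (hB : Low B (i * n)) (h : Col c B)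
    (χ : Fin n → Fin c) : Col c (gr B n i (sepX χ)) := by
  classical
  obtain ⟨f, hf⟩ := h
  refine ⟨fun v => if h : i * n ≤ v.val ∧ v.val < i * n + n then χ ⟨v.val - i * n, by omega⟩
    else f v, ?_⟩
  intro u v huv
  rw [gr_adj (si_sepX χ)] at huv
  rcases huv with h1 | ⟨a, b, hab, h1, h2⟩
  · have h2 := hB u v h1
    have h3 := hB v u h1.symm
    have e1 : ¬ (i * n ≤ u.val ∧ u.val < i * n + n) := by omega
    have e2 : ¬ (i * n ≤ v.val ∧ v.val < i * n + n) := by omega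
    simp only [dif_neg e1, dif_neg e2]
    exact hf u v h1
  · have ha := a.isLt
    have hb := b.isLt
    have e1 : i * n ≤ u.val ∧ u.val < i * n + n := by omega
    have e2 : i * n ≤ v.val ∧ v.val < i * n + n := by omega
    simp only [dif_pos e1, dif_pos e2]
    have e3 : (⟨u.val - i * n, by omega⟩ : Fin n) = a := Fin.ext (by simp; omega)
    have e4 : (⟨v.val - i * n, by omega⟩ : Fin n) = b := Fin.ext (by simp; omega)
    rw [e3, e4]
    exact mem_sepX.1 hab

theorem clique_gr {B : SimpleGraph (Fin N)} {n i : ℕ} (hN : (i + 1) * n ≤ N)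
    {S : Finset (Fin n)} (hS : #S = c + 1) : ¬ (gr B n i (cl S)).CliqueFree (c + 1) := by
  classical
  have h0 : (i + 1) * n = i * n + n := by ring
  have hlt : ∀ a : Fin n, i * n + a.val < N := fun a => by
    have := a.isLt
    omega
  rw [SimpleGraph.CliqueFree]
  push Not
  have hinj : Function.Injective (fun a : Fin n => (⟨i * n + a.val, hlt a⟩ : Fin N)) := by
    intro a b h
    simp only [Fin.mk.injEq] at h
    exact Fin.ext (by omega)
  refine ⟨S.map ⟨_, hinj⟩, ?_, ?_⟩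
  · intro u hu v hv huv
    rw [coe_map, Set.mem_image] at hu hv
    obtain ⟨a, ha, rfl⟩ := hu
    obtain ⟨b, hb, rfl⟩ := hv
    rw [gr_adj (si_cl S)]
    refine Or.inr ⟨a, b, mem_cl.2 ⟨ha, hb, ?_⟩, rfl, rfl⟩
    rintro rfl
    exact huv rfl
  · rw [card_map, hS]

section Rand

variable {w : ℕ} {Ω : Type} [Fintype Ω] (p : Ω → ℝ) (A : Ω → Alg K w Bool)
  (σ : Ω → Mem w) (lab0 : K → (Fin N × Fin N) ⊕ ℝ)

/-- the potential -/
noncomputable def pot (B : SimpleGraph (Fin N)) : ℝ :=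
  ∑ ω, p ω * ((A ω).idx (inp lab0 B) (σ ω) : ℝ)

open Classical in
/-- the colourings which lead to another leaf -/
noncomputable def chg (c : ℕ) (B : SimpleGraph (Fin N)) (n i : ℕ) (ω : Ω) :
    Finset (Fin n → Fin c) :=
  {χ | (A ω).idx (inp lab0 (gr B n i (sepX χ))) (σ ω) ≠ (A ω).idx (inp lab0 B) (σ ω)}

open Classical in
/-- There is a background and a block such that the leaf changes rarely. -/
theorem exists_block (hc : 1 ≤ c) (hp : ∀ ω, 0 ≤ p ω) (hp1 : ∑ ω, p ω = 1) {ℓ q : ℕ}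
    (hq : 1 ≤ q) (hℓ : ∀ ω, (A ω).leaves ≤ ℓ) (n : ℕ) :
    ∃ i < ℓ * q, ∃ B : SimpleGraph (Fin N), Low B (i * n) ∧ Col c B ∧
      ∑ ω, p ω * (#(chg A σ lab0 c B n i ω) : ℝ) < (c : ℝ) ^ n / q := by
  have hne : Nonempty (Fin n → Fin c) := ⟨fun _ => ⟨0, hc⟩⟩
  by_contra hcon
  push Not at hcon
  have key : ∀ M ≤ ℓ * q, ∃ B : SimpleGraph (Fin N), Low B (M * n) ∧ Col c B ∧
      (M : ℝ) / q ≤ pot p A σ lab0 B := by
    intro M
    induction M with
    | zero =>
      intro _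
      refine ⟨⊥, ?_, ⟨fun _ => ⟨0, hc⟩, ?_⟩, ?_⟩
      · intro u v h
        simp at h
      · intro u v h
        simp at h
      · simp only [Nat.cast_zero, zero_div, pot]
        exact sum_nonneg (fun ω _ => mul_nonneg (hp ω) (Nat.cast_nonneg _))
    | succ M ih =>
      intro hM
      obtain ⟨B, h1, h2, h3⟩ := ih (by omega)
      have h4 := hcon M (by omega) B h1 h2
      -- an average colouring
      have h5 : ∃ χ : Fin n → Fin c, (1 : ℝ) / q ≤ ∑ ω, p ω *
          (if (A ω).idx (inp lab0 (gr B n M (sepX χ))) (σ ω) ≠ (A ω).idx (inp lab0 B) (σ ω)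
            then (1 : ℝ) else 0) := by
        by_contra hcon2
        push Not at hcon2
        have h6 : ∑ ω, p ω * (#(chg A σ lab0 c B n M ω) : ℝ) = ∑ χ : Fin n → Fin c, ∑ ω, p ω *
          (if (A ω).idx (inp lab0 (gr B n M (sepX χ))) (σ ω) ≠ (A ω).idx (inp lab0 B) (σ ω)
            then (1 : ℝ) else 0) := by
          rw [sum_comm]
          apply sum_congr rfl
          intro ω _
          rw [← mul_sum]
          congr 1
          rw [chg, card_filter]
          push_cast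
          rfl
        have h7 : ∑ χ : Fin n → Fin c, ∑ ω, p ω *
          (if (A ω).idx (inp lab0 (gr B n M (sepX χ))) (σ ω) ≠ (A ω).idx (inp lab0 B) (σ ω)
            then (1 : ℝ) else 0) < ∑ _χ : Fin n → Fin c, (1 : ℝ) / q :=
          sum_lt_sum_of_nonempty univ_nonempty (fun χ _ => hcon2 χ)
        rw [sum_const, card_univ, Fintype.card_fun, Fintype.card_fin, Fintype.card_fin,
          nsmul_eq_mul] at h7
        rw [h6] at h4
        push_cast at h7
        rw [mul_one_div] at h7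
        exact absurd h7 (not_lt.2 h4)
      obtain ⟨χ, hχ⟩ := h5
      refine ⟨gr B n M (sepX χ), low_gr h1 (si_sepX χ), col_gr h1 h2 χ, ?_⟩
      have h8 : pot p A σ lab0 B + ∑ ω, p ω *
          (if (A ω).idx (inp lab0 (gr B n M (sepX χ))) (σ ω) ≠ (A ω).idx (inp lab0 B) (σ ω)
            then (1 : ℝ) else 0) ≤ pot p A σ lab0 (gr B n M (sepX χ)) := by
        rw [pot, pot, ← sum_add_distrib]
        apply sum_le_sum
        intro ω _
        rw [← mul_add]
        apply mul_le_mul_of_nonneg_left _ (hp ω)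
        have h9 := (A ω).idx_mono (le_gr lab0 (B := B) (n := n) (i := M) (X := sepX χ))
          (le_refl (σ ω))
        split_ifs with h10
        · have h11 : (A ω).idx (inp lab0 B) (σ ω) + 1 ≤
              (A ω).idx (inp lab0 (gr B n M (sepX χ))) (σ ω) := by omega
          exact_mod_cast h11
        · rw [add_zero]
          exact_mod_cast h9
      have h9 : ((M + 1 : ℕ) : ℝ) / q = (M : ℝ) / q + 1 / q := by
        push_cast
        ring
      rw [h9]
      linarith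
  obtain ⟨B, _, _, h3⟩ := key (ℓ * q) le_rfl
  have h4 : (((ℓ * q : ℕ) : ℝ)) / q = ℓ := by
    push_cast
    have : (q : ℝ) ≠ 0 := by
      have : (1 : ℝ) ≤ q := by exact_mod_cast hq
      linarith
    field_simp
  rw [h4] at h3
  have h5 : ∀ ω, ((A ω).idx (inp lab0 B) (σ ω) : ℝ) ≤ (ℓ : ℝ) - 1 := by
    intro ω
    have h6 := (A ω).idx_lt (inp lab0 B) (σ ω)
    have h7 := hℓ ω
    have h8 : (A ω).idx (inp lab0 B) (σ ω) + 1 ≤ ℓ := by omega
    have h9 : (((A ω).idx (inp lab0 B) (σ ω) : ℕ) : ℝ) + 1 ≤ ℓ := by exact_mod_cast h8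
    linarith
  have h6 : pot p A σ lab0 B ≤ (ℓ : ℝ) - 1 := by
    rw [pot]
    calc _ ≤ ∑ ω, p ω * ((ℓ : ℝ) - 1) :=
          sum_le_sum (fun ω _ => mul_le_mul_of_nonneg_left (h5 ω) (hp ω))
      _ = _ := by rw [← sum_mul, hp1, one_mul]
  linarith

end Rand

/-- the cliques -/
def Tq (c n : ℕ) : Finset (Finset (Fin n)) := powersetCard (c + 1) univ

theorem card_Tq (c n : ℕ) : #(Tq c n) = n.choose (c + 1) := by
  rw [Tq, card_powersetCard, card_univ, Fintype.card_fin]

theorem mem_Tq {n : ℕ} {S : Finset (Fin n)} : S ∈ Tq c n ↔ #S = c + 1 := by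
  rw [Tq, mem_powersetCard]
  simp

/-- the number of pairs which one place of the memory can separate -/
def B0 (c n L w g r : ℕ) : ℕ :=
  (g * LL c L w r + KK c L * n ^ c) * c ^ n +
    n.choose (c + 1) * (g * (w * (KK c L * dd c (Fin n) L 0)))

open Classical in
theorem one_alg {w n L g i r : ℕ} (hc : 2 ≤ c) (hL : 1 ≤ L) (hP : Par c (Fin n) L)
    (hr : c + 1 = 2 * r) (lab0 : K → (Fin N × Fin N) ⊕ ℝ)
    (A : Alg K w Bool) (σ : Mem w) (hg : A.steps ≤ g)
    {B : SimpleGraph (Fin N)} (hB : Low B (i * n)) :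
    #{p ∈ Tq c n ×ˢ (univ : Finset (Fin n → Fin c)) |
      A.idx (inp lab0 (gr B n i (cl p.1))) σ ≠ A.idx (inp lab0 (gr B n i (sepX p.2))) σ} ≤
      A.leaves * B0 c n L w g r + #(Tq c n) * #{χ : Fin n → Fin c |
        A.idx (inp lab0 (gr B n i (sepX χ))) σ ≠ A.idx (inp lab0 B) σ} := by
  set C : Finset (Fin n → Fin c) := {χ | A.idx (inp lab0 (gr B n i (sepX χ))) σ =
    A.idx (inp lab0 B) σ} with hC
  set C' : Finset (Fin n → Fin c) := {χ | A.idx (inp lab0 (gr B n i (sepX χ))) σ ≠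
    A.idx (inp lab0 B) σ} with hC'
  have hcard : Fintype.card (Fin n) = n := Fintype.card_fin n
  have h1 := count_idx (Tq c n) C (inp lab0 B) (fun S => inp lab0 (gr B n i (cl S)))
    (fun χ => inp lab0 (gr B n i (sepX χ))) σ g (B0 c n L w g r) (fun _ _ => le_gr lab0)
    (fun _ _ => le_gr lab0) (by
      intro W s θ hW
      have h2 := pairs_le (U := Fin n) (L := L) hc hL hP hr (labB lab0 B n i)
        σ (Tq c n) (fun S hS => mem_Tq.1 hS) W s θ
      have h3 : ({p ∈ Tq c n ×ˢ C |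
          θ ≤ rd (inp lab0 (gr B n i (cl p.1))) (execs (inp lab0 (gr B n i (cl p.1))) W σ) s ∧
          rd (inp lab0 (gr B n i (sepX p.2))) (execs (inp lab0 (gr B n i (sepX p.2))) W σ) s < θ} :
            Finset _) ⊆ ({p ∈ Tq c n ×ˢ (univ : Finset (Fin n → Fin c)) |
        θ ≤ rd (xin (labB lab0 B n i) (cl p.1)) (execs (xin (labB lab0 B n i) (cl p.1)) W σ) s ∧
        rd (xin (labB lab0 B n i) (sepX p.2)) (execs (xin (labB lab0 B n i) (sepX p.2)) W σ) s < θ} :
          Finset _) := by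
        intro p hp
        rw [mem_filter, mem_product] at hp
        rw [inp_gr lab0 (si_cl _) hB, inp_gr lab0 (si_sepX _) hB] at hp
        rw [mem_filter, mem_product]
        exact ⟨⟨hp.1.1, mem_univ _⟩, hp.2⟩
      refine (card_le_card h3).trans (h2.trans ?_)
      rw [B0, hcard, card_Tq]
      exact Nat.add_le_add (Nat.mul_le_mul_right _ (Nat.add_le_add_right
        (Nat.mul_le_mul_right _ hW) _)) (Nat.mul_le_mul_left _ (Nat.mul_le_mul_right _ hW))) A []
    (by simpa using hg) (by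
      intro χ hχ
      rw [hC, mem_filter] at hχ
      rw [execs_nil, execs_nil]
      exact hχ.2.symm)
  have h2 : ({p ∈ Tq c n ×ˢ (univ : Finset (Fin n → Fin c)) |
      A.idx (inp lab0 (gr B n i (cl p.1))) σ ≠ A.idx (inp lab0 (gr B n i (sepX p.2))) σ} :
        Finset _) ⊆ ({p ∈ Tq c n ×ˢ C |
      A.idx (inp lab0 (gr B n i (cl p.1))) σ ≠ A.idx (inp lab0 (gr B n i (sepX p.2))) σ} :
        Finset _) ∪ Tq c n ×ˢ C' := by
    intro p hp
    rw [mem_filter, mem_product] at hp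
    rw [mem_union]
    by_cases h3 : p.2 ∈ C
    · left
      rw [mem_filter, mem_product]
      exact ⟨⟨hp.1.1, h3⟩, hp.2⟩
    · right
      rw [mem_product]
      refine ⟨hp.1.1, ?_⟩
      rw [hC', mem_filter]
      refine ⟨mem_univ _, fun h4 => h3 ?_⟩
      rw [hC, mem_filter]
      exact ⟨mem_univ _, h4⟩
  refine (card_le_card h2).trans ((card_union_le _ _).trans ?_)
  rw [card_product]
  apply Nat.add_le_add_right
  refine le_trans (card_le_card ?_) ((Nat.le_add_right _ _).trans h1)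
  intro p hp
  exact mem_fil2.2 (mem_fil2.1 hp)

open Classical in
theorem count_main {w g ℓ q n L r : ℕ} (hc : 2 ≤ c) (hL : 1 ≤ L) (hP : Par c (Fin n) L)
    (hr : c + 1 = 2 * r) (hq : 1 ≤ q) (hn : ℓ * q * n ≤ N) (lab0 : K → (Fin N × Fin N) ⊕ ℝ)
    {Ω : Type} [Fintype Ω] (p : Ω → ℝ) (hp : ∀ ω, 0 ≤ p ω) (hp1 : ∑ ω, p ω = 1)
    (A : Ω → Alg K w Bool) (σ : Ω → Mem w)
    (hA : ∀ ω, (A ω).leaves ≤ ℓ ∧ (A ω).steps ≤ g)
    (hcorr : ∀ G : SimpleGraph (Fin N), (1 : ℝ) / 2 + 1 / q ≤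
      ∑ ω ∈ univ.filter (fun ω => ((A ω).run (inp lab0 G) (σ ω)).1 = true ↔
        ¬ G.CliqueFree (c + 1)), p ω) :
    n.choose (c + 1) * c ^ n ≤ (ℓ * q) * B0 c n L w g r := by
  obtain ⟨i, hi, B, hB, hcol, hchg⟩ := exists_block p A σ lab0 (show 1 ≤ c by omega) hp hp1 hq
    (fun ω => (hA ω).1) n
  have hiN : (i + 1) * n ≤ N := le_trans (Nat.mul_le_mul_right _ hi) hn
  set T := Tq c n with hT
  set P : Finset (Fin n) → SimpleGraph (Fin N) := fun S => gr B n i (cl S) with hPd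
  set Q : (Fin n → Fin c) → SimpleGraph (Fin N) := fun χ => gr B n i (sepX χ) with hQ
  set D : Ω → Finset (Finset (Fin n) × (Fin n → Fin c)) := fun ω =>
    {z ∈ T ×ˢ (univ : Finset (Fin n → Fin c)) |
      (A ω).idx (inp lab0 (P z.1)) (σ ω) ≠ (A ω).idx (inp lab0 (Q z.2)) (σ ω)} with hD
  have h1 : ∀ ω, #(D ω) ≤ ℓ * B0 c n L w g r + #T * #(chg A σ lab0 c B n i ω) := by
    intro ω
    refine (one_alg hc hL hP hr lab0 (A ω) (σ ω) (hA ω).2 hB).trans ?_
    exact Nat.add_le_add (Nat.mul_le_mul_right _ (hA ω).1) le_rfl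
  -- correctness
  have h2 : ∀ S ∈ T, ∀ χ : Fin n → Fin c, (2 : ℝ) / q ≤ ∑ ω, p ω *
      (if (A ω).idx (inp lab0 (P S)) (σ ω) ≠ (A ω).idx (inp lab0 (Q χ)) (σ ω) then (1 : ℝ)
        else 0) := by
    intro S hS χ
    have c1 := hcorr (P S)
    have c2 := hcorr (Q χ)
    have k1 : ¬ (P S).CliqueFree (c + 1) := clique_gr hiN (mem_Tq.1 hS)
    have k2 : (Q χ).CliqueFree (c + 1) := (col_gr hB hcol χ).cliqueFree
    rw [sum_filter] at c1 c2
    have h3 : ∑ ω, (if (((A ω).run (inp lab0 (P S)) (σ ω)).1 = true ↔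
        ¬ (P S).CliqueFree (c + 1)) then p ω else 0) +
        ∑ ω, (if (((A ω).run (inp lab0 (Q χ)) (σ ω)).1 = true ↔
        ¬ (Q χ).CliqueFree (c + 1)) then p ω else 0) ≤ ∑ ω, p ω + ∑ ω, p ω *
        (if (A ω).idx (inp lab0 (P S)) (σ ω) ≠ (A ω).idx (inp lab0 (Q χ)) (σ ω) then (1 : ℝ)
          else 0) := by
      rw [← sum_add_distrib, ← sum_add_distrib]
      apply sum_le_sum
      intro ω _
      have hpω := hp ω
      by_cases h4 : (A ω).idx (inp lab0 (P S)) (σ ω) ≠ (A ω).idx (inp lab0 (Q χ)) (σ ω)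
      · rw [if_pos h4, mul_one]
        split_ifs <;> linarith
      · rw [if_neg h4, mul_zero, add_zero]
        push Not at h4
        have h5 : ((A ω).run (inp lab0 (P S)) (σ ω)).1 = ((A ω).run (inp lab0 (Q χ)) (σ ω)).1 := by
          rw [Alg.run_eq, Alg.run_eq, h4]
        rw [h5]
        by_cases h6 : ((A ω).run (inp lab0 (Q χ)) (σ ω)).1 = true
        · have e2 : ¬ (((A ω).run (inp lab0 (Q χ)) (σ ω)).1 = true ↔
              ¬ (Q χ).CliqueFree (c + 1)) := by
            simp [h6, k2]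
          rw [if_neg e2, add_zero]
          split_ifs <;> linarith
        · have e1 : ¬ (((A ω).run (inp lab0 (Q χ)) (σ ω)).1 = true ↔
              ¬ (P S).CliqueFree (c + 1)) := by
            simp [h6, k1]
          rw [if_neg e1, zero_add]
          split_ifs <;> linarith
    have h4 : (2 : ℝ) / q = 1 / q + 1 / q := by ring
    rw [hp1] at h3
    linarith
  have h3 : (#T : ℝ) * (c : ℝ) ^ n * (2 / q) ≤ ∑ ω, p ω * (#(D ω) : ℝ) := by
    have h4 : ∑ ω, p ω * (#(D ω) : ℝ) = ∑ z ∈ T ×ˢ (univ : Finset (Fin n → Fin c)), ∑ ω, p ω *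
      (if (A ω).idx (inp lab0 (P z.1)) (σ ω) ≠ (A ω).idx (inp lab0 (Q z.2)) (σ ω)
        then (1 : ℝ) else 0) := by
      rw [sum_comm]
      apply sum_congr rfl
      intro ω _
      rw [← mul_sum]
      congr 1
      rw [hD]
      simp only
      rw [card_filter]
      push_cast
      rfl
    rw [h4]
    calc (#T : ℝ) * (c : ℝ) ^ n * (2 / q) =
        ∑ _z ∈ T ×ˢ (univ : Finset (Fin n → Fin c)), (2 : ℝ) / q := by
          rw [sum_const, card_product, card_univ, Fintype.card_fun, Fintype.card_fin,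
            Fintype.card_fin, nsmul_eq_mul]
          push_cast
          ring
      _ ≤ _ := by
          apply sum_le_sum
          intro z hz
          exact h2 z.1 (mem_product.1 hz).1 z.2
  have h4 : ∑ ω, p ω * (#(D ω) : ℝ) ≤ (ℓ * B0 c n L w g r : ℕ) + #T * ((c : ℝ) ^ n / q) := by
    calc ∑ ω, p ω * (#(D ω) : ℝ) ≤ ∑ ω, p ω * ((ℓ * B0 c n L w g r : ℕ) +
          (#T : ℝ) * (#(chg A σ lab0 c B n i ω) : ℝ)) := by
          apply sum_le_sum
          intro ω _
          apply mul_le_mul_of_nonneg_left _ (hp ω)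
          exact_mod_cast h1 ω
      _ = (∑ ω, p ω) * (ℓ * B0 c n L w g r : ℕ) +
          #T * ∑ ω, p ω * (#(chg A σ lab0 c B n i ω) : ℝ) := by
          simp only [mul_add]
          rw [sum_add_distrib, ← sum_mul, mul_sum]
          congr 1
          apply sum_congr rfl
          intro ω _
          ring
      _ ≤ _ := by
          rw [hp1, one_mul]
          have : (0 : ℝ) ≤ #T := Nat.cast_nonneg _
          have h5 := mul_le_mul_of_nonneg_left hchg.le this
          linarith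
  have hqr : (0 : ℝ) < q := by
    have : (1 : ℝ) ≤ q := by exact_mod_cast hq
    linarith
  have h5 : (#T : ℝ) * (c : ℝ) ^ n * (1 / q) ≤ (ℓ * B0 c n L w g r : ℕ) := by
    have e : (#T : ℝ) * (c : ℝ) ^ n * (2 / q) =
        (#T : ℝ) * (c : ℝ) ^ n * (1 / q) + #T * ((c : ℝ) ^ n / q) := by
      ring
    linarith
  have h6 : (#T : ℝ) * (c : ℝ) ^ n ≤ q * (ℓ * B0 c n L w g r : ℕ) := by
    calc (#T : ℝ) * (c : ℝ) ^ n = q * ((#T : ℝ) * (c : ℝ) ^ n * (1 / q)) := by field_simp
      _ ≤ _ := mul_le_mul_of_nonneg_left h5 hqr.le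
  have h7 : #T * c ^ n ≤ q * (ℓ * B0 c n L w g r) := by exact_mod_cast h6
  rw [hT, card_Tq] at h7
  calc _ ≤ _ := h7
    _ = _ := by ring

/-- The lower bound for clique detection. -/
theorem clique_lower (c r : ℕ) (hc : 2 ≤ c) (hr : c + 1 = 2 * r) : ∃ K0 : ℕ, 1 ≤ K0 ∧
    ∀ (N w g ℓ q : ℕ), 1 ≤ w → 1 ≤ g → 1 ≤ q → ∀ {K : Type} (lab0 : K → (Fin N × Fin N) ⊕ ℝ)
    {Ω : Type} [Fintype Ω] (p : Ω → ℝ), (∀ ω, 0 ≤ p ω) → ∑ ω, p ω = 1 →
    ∀ (A : Ω → Alg K w Bool) (σ : Ω → Mem w), (∀ ω, (A ω).leaves ≤ ℓ ∧ (A ω).steps ≤ g) →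
    (∀ G : SimpleGraph (Fin N), (1 : ℝ) / 2 + 1 / q ≤
      ∑ ω, p ω * (@ite ℝ (((A ω).run (inp lab0 G) (σ ω)).1 = true ↔ ¬ G.CliqueFree (c + 1))
        (Classical.propDecidable _) 1 0)) →
    N ^ (c + 1) ≤ K0 * (Nat.log 2 N + 1) ^ ((c + 1) ^ 2) * w ^ r * g * (ℓ * q) ^ (2 * (c + 1)) := by
  classical
  obtain ⟨K0, hK1, hK⟩ := num c r hc hr
  refine ⟨K0, hK1, ?_⟩
  intro N w g ℓ q hw hg hq K lab0 Ω _ p hp hp1 A σ hA hcorr
  have hℓ : 1 ≤ ℓ := by
    obtain ⟨ω, _⟩ : ∃ ω : Ω, True := by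
      by_contra hcon
      have : IsEmpty Ω := ⟨fun ω => hcon ⟨ω, trivial⟩⟩
      rw [Fintype.sum_empty] at hp1
      norm_num at hp1
    exact (A ω).leaves_pos.trans_le (hA ω).1
  refine hK N (ℓ * q) g w (N / (ℓ * q)) (Nat.mul_pos hℓ hq) hg hw rfl ?_
  intro L hL hP
  refine count_main hc hL hP hr hq (Nat.mul_div_le _ _) lab0 p hp hp1 A σ hA ?_
  intro G
  refine (hcorr G).trans (le_of_eq ?_)
  rw [sum_filter]
  apply sum_congr rfl
  intro ω _
  by_cases h : (((A ω).run (inp lab0 G) (σ ω)).1 = true ↔ ¬ G.CliqueFree (c + 1))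
  · rw [if_pos h, if_pos h, mul_one]
  · rw [if_neg h, if_neg h, mul_zero]

end Pool.Agent.L5helper51.WK
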