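import Pool.Agent.L5helper51.WK.App
import Pool.Agent.L5helper51.WG.Run

/-!
# The approximation of instructions, and the main lemma
-/

namespace Pool.Agent.L5helper51.WK

open Finset
open Pool.Agent.L5helper51.WG (Mem Ins rd xin execs execs_nil execs_cons)

variable {U : Type*} [Fintype U] [DecidableEq U] {c L : ℕ} {K : Type*} {w : ℕ}

/-- the bound for the number of cores -/
def KK (c L : ℕ) : ℕ := ((c + 1) * L + 1) ^ (c + 1)

/-- approximator of an input entry -/
def labApp : (U × U) ⊕ ℝ → App U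
  | .inl p => fun T => if p.1 ≠ p.2 ∧ T = {p.1, p.2} then 1 else 0
  | .inr x => fun _ => x

/-- approximator of a place -/
def srcApp (lab : K → (U × U) ⊕ ℝ) (M : ℕ → Fin w → App U) : K ⊕ (ℕ × Fin w) → App U
  | .inl k => labApp (lab k)
  | .inr p => M p.1 p.2

/-- the function of the colouring which is approximated -/
noncomputable def hfun (c : ℕ) (lab : K → (U × U) ⊕ ℝ) (M : ℕ → Fin w → App U) (I : Ins K w)
    (j : Fin w) (χ : U → Fin c) : ℝ :=
  I.f (fun i => ev c (srcApp lab M (I.src i)) (sepX χ)) j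

/-- the approximators after an instruction -/
noncomputable def nextApp (c L : ℕ) (lab : K → (U × U) ⊕ ℝ) (M : ℕ → Fin w → App U)
    (I : Ins K w) : ℕ → Fin w → App U :=
  Function.update M I.dst (fun j => mk L (hfun c lab M I j))

/-- good approximators: few active sets -/
def Good (c L : ℕ) (A : App U) : Prop :=
  ∃ Z : Finset (Finset U), #Z ≤ KK c L ∧ (∀ C ∈ Z, #C ≤ c + 1) ∧ ∀ T, #T ≤ c → Active A T → T ∈ Z

theorem two_le_KK (hc : 1 ≤ c) (hL : 1 ≤ L) : 2 ≤ KK c L := by
  rw [KK]
  have h1 : 3 ≤ (c + 1) * L + 1 := by nlinarith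
  calc 2 ≤ 3 ^ 1 := by norm_num
    _ ≤ ((c + 1) * L + 1) ^ 1 := Nat.pow_le_pow_left h1 1
    _ ≤ _ := Nat.pow_le_pow_right (by omega) (by omega)

omit [Fintype U] in
theorem good_const (hc : 1 ≤ c) (hL : 1 ≤ L) (x : ℝ) : Good c L (fun _ => x : App U) := by
  refine ⟨{∅}, ?_, by simp, ?_⟩
  · have := two_le_KK hc hL
    rw [card_singleton]
    omega
  · intro T _ hT
    rw [mem_singleton]
    by_contra h
    have h1 : (∅ : Finset U) ⊂ T := empty_ssubset.2 (nonempty_iff_ne_empty.2 h)
    exact lt_irrefl _ (hT ∅ h1)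

omit [Fintype U] in
theorem good_lab (hc : 1 ≤ c) (hL : 1 ≤ L) (p : (U × U) ⊕ ℝ) : Good c L (labApp p) := by
  rcases p with p | x
  · refine ⟨{∅, {p.1, p.2}}, ?_, ?_, ?_⟩
    · exact card_le_two.trans (two_le_KK hc hL)
    · intro C hC
      rw [mem_insert, mem_singleton] at hC
      rcases hC with rfl | rfl
      · simp
      · exact card_le_two.trans (by omega)
    · intro T _ hT
      rw [mem_insert, mem_singleton]
      by_contra h
      rw [not_or] at h
      have h1 : (∅ : Finset U) ⊂ T := empty_ssubset.2 (nonempty_iff_ne_empty.2 h.1)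
      have h2 := hT ∅ h1
      simp only [labApp] at h2
      rw [if_neg (show ¬ (p.1 ≠ p.2 ∧ T = {p.1, p.2}) from fun h3 => h.2 h3.2)] at h2
      split_ifs at h2 <;> norm_num at h2
  · exact good_const hc hL x

omit [Fintype U] in
theorem good_src (hc : 1 ≤ c) (hL : 1 ≤ L) (lab : K → (U × U) ⊕ ℝ) {M : ℕ → Fin w → App U}
    (hM : ∀ r j, Good c L (M r j)) (s : K ⊕ (ℕ × Fin w)) : Good c L (srcApp lab M s) := by
  rcases s with k | p
  · exact good_lab hc hL _
  · exact hM _ _

theorem good_next (hc : 1 ≤ c) (hL : 1 ≤ L) (hP : Par c U L) (lab : K → (U × U) ⊕ ℝ)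
    {M : ℕ → Fin w → App U} (hM : ∀ r j, Good c L (M r j)) (I : Ins K w) :
    ∀ r j, Good c L (nextApp c L lab M I r j) := by
  intro r j
  rw [nextApp]
  by_cases h : r = I.dst
  · subst h
    rw [Function.update_self]
    exact act_cores hc hL hP _
  · rw [Function.update_of_ne h]
    exact hM r j

/-! ### Colourings -/

/-- the bad colourings of an instruction -/
noncomputable def badI (c L : ℕ) (lab : K → (U × U) ⊕ ℝ) (M : ℕ → Fin w → App U) (I : Ins K w) :
    Finset (U → Fin c) :=
  univ.biUnion (fun j => {χ : U → Fin c | hfun c lab M I j χ <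
    ev c (mk L (hfun c lab M I j)) (sepX χ)})

theorem card_badI (hc : 1 ≤ c) (hL : 1 ≤ L) (hP : Par c U L) (lab : K → (U × U) ⊕ ℝ)
    (M : ℕ → Fin w → App U) (I : Ins K w) :
    #(badI c L lab M I) ≤ w * (KK c L * dd c U L 0) := by
  refine card_biUnion_le.trans ?_
  calc _ ≤ ∑ _j : Fin w, KK c L * dd c U L 0 := by
        apply sum_le_sum
        intro j _
        refine le_trans (card_le_card ?_) (card_bad hc hL hP (hfun c lab M I j))
        intro χ hχ
        exact mem_fil2.2 (mem_fil2.1 hχ)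
    _ = _ := by simp

/-- the approximation is below the truth -/
def Below (c : ℕ) (M : ℕ → Fin w → App U) (X : Finset (U × U)) (σ : Mem w) : Prop :=
  ∀ r j, ev c (M r j) X ≤ σ r j

/-- the approximation is above the truth -/
def Above (c : ℕ) (M : ℕ → Fin w → App U) (X : Finset (U × U)) (σ : Mem w) : Prop :=
  ∀ r j, σ r j ≤ ev c (M r j) X

theorem below_src (lab : K → (U × U) ⊕ ℝ) {M : ℕ → Fin w → App U} {χ : U → Fin c} {σ : Mem w}
    (h : Below c M (sepX χ) σ) (s : K ⊕ (ℕ × Fin w)) :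
    ev c (srcApp lab M s) (sepX χ) ≤ rd (xin lab (sepX χ)) σ s := by
  rcases s with k | p
  · simp only [srcApp, rd, xin]
    rcases lab k with p | x
    · apply ev_le
      intro T _ hT
      simp only [labApp]
      split_ifs with h1 h2 h3
      · exact le_rfl
      · exfalso
        apply h2
        obtain ⟨p1, p2⟩ := p
        have h4 := hT p1 (by rw [h1.2]; simp) p2 (by rw [h1.2]; simp) h1.1
        exact h4
      · norm_num
      · exact le_rfl
    · exact ev_le _ (fun _ _ _ => le_rfl)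
  · exact h _ _

theorem below_next (lab : K → (U × U) ⊕ ℝ) {M : ℕ → Fin w → App U} {χ : U → Fin c} {σ : Mem w}
    (h : Below c M (sepX χ) σ) (I : Ins K w) (hχ : χ ∉ badI c L lab M I) :
    Below c (nextApp c L lab M I) (sepX χ) (I.exec (xin lab (sepX χ)) σ) := by
  intro r j
  rw [nextApp, Ins.exec]
  by_cases hr : r = I.dst
  · subst hr
    rw [Function.update_self, Function.update_self]
    have h1 : ev c (mk L (hfun c lab M I j)) (sepX χ) ≤ hfun c lab M I j χ := by
      by_contra h2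
      apply hχ
      rw [badI, mem_biUnion]
      exact ⟨j, mem_univ _, mem_filter.2 ⟨mem_univ _, not_le.1 h2⟩⟩
    refine h1.trans ?_
    exact I.mono (fun i => below_src lab h (I.src i)) j
  · rw [Function.update_of_ne hr, Function.update_of_ne hr]
    exact h r j

/-! ### Cliques -/

/-- the lost cliques of an instruction -/
noncomputable def lostI (c L : ℕ) (lab : K → (U × U) ⊕ ℝ) (M : ℕ → Fin w → App U)
    (I : Ins K w) : Finset (Finset U) :=
  {S | #S = c + 1 ∧ ∃ j, ev c (mk L (hfun c lab M I j)) (cl S) <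
    I.f (fun i => ev c (srcApp lab M (I.src i)) (cl S)) j}

theorem above_src (hc : 2 ≤ c) (lab : K → (U × U) ⊕ ℝ) {M : ℕ → Fin w → App U} {S : Finset U}
    {σ : Mem w} (h : Above c M (cl S) σ) (s : K ⊕ (ℕ × Fin w)) :
    rd (xin lab (cl S)) σ s ≤ ev c (srcApp lab M s) (cl S) := by
  rcases s with k | p
  · simp only [srcApp, rd, xin]
    rcases lab k with p | x
    · simp only
      split_ifs with h1
      · obtain ⟨p1, p2⟩ := p
        rw [mem_cl] at h1
        have h2 : ({p1, p2} : Finset U) ⊆ S := by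
          intro v hv
          rw [mem_insert, mem_singleton] at hv
          rcases hv with rfl | rfl
          · exact h1.1
          · exact h1.2.1
        refine le_trans ?_ (le_ev (labApp (.inl (p1, p2))) (T := {p1, p2})
          (card_le_two.trans hc) (cq_cl h2))
        simp only [labApp]
        rw [if_pos ⟨h1.2.2, trivial⟩]
      · refine le_trans ?_ (le_ev (labApp (.inl p)) (T := ∅) (by simp) (by
          intro a ha; simp at ha))
        simp only [labApp]
        split_ifs <;> norm_num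
    · exact le_ev (labApp (U := U) (.inr x)) (T := ∅) (by simp) (by intro a ha; simp at ha)
  · exact h _ _

theorem above_next (hc : 2 ≤ c) (lab : K → (U × U) ⊕ ℝ) {M : ℕ → Fin w → App U} {S : Finset U}
    {σ : Mem w} (h : Above c M (cl S) σ) (I : Ins K w) (hS : #S = c + 1)
    (hl : S ∉ lostI c L lab M I) :
    Above c (nextApp c L lab M I) (cl S) (I.exec (xin lab (cl S)) σ) := by
  intro r j
  rw [nextApp, Ins.exec]
  by_cases hr : r = I.dst
  · subst hr
    rw [Function.update_self, Function.update_self]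
    have h1 : I.f (fun i => ev c (srcApp lab M (I.src i)) (cl S)) j ≤
        ev c (mk L (hfun c lab M I j)) (cl S) := by
      by_contra h2
      apply hl
      rw [lostI, mem_filter]
      exact ⟨mem_univ _, hS, j, not_le.1 h2⟩
    refine le_trans ?_ h1
    exact I.mono (fun i => above_src hc lab h (I.src i)) j
  · rw [Function.update_of_ne hr, Function.update_of_ne hr]
    exact h r j

/-- the pairs inside the members of a family -/
def prs (Z : Finset (Finset U)) : Finset (U × U) := Z.biUnion (fun C => C ×ˢ C)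

omit [Fintype U] in
theorem card_prs {Z : Finset (Finset U)} {s : ℕ} (h : ∀ C ∈ Z, #C ≤ s) :
    #(prs Z) ≤ #Z * s ^ 2 := by
  refine card_biUnion_le.trans ?_
  calc _ ≤ ∑ _C ∈ Z, s ^ 2 := by
        apply sum_le_sum
        intro C hC
        rw [card_product, ← sq]
        exact Nat.pow_le_pow_left (h C hC) 2
    _ = _ := by rw [sum_const, smul_eq_mul]

omit [Fintype U] in
theorem mem_prs {Z : Finset (Finset U)} {C : Finset U} (hC : C ∈ Z) {a b : U} (ha : a ∈ C)
    (hb : b ∈ C) : (a, b) ∈ prs Z :=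
  mem_biUnion.2 ⟨C, hC, mem_product.2 ⟨ha, hb⟩⟩

/-- the bound for the lost cliques -/
def LL (c L w r : ℕ) : ℕ := (2 * (w * (KK c L * (c + 1) ^ 2))) ^ r

open Classical in
/-- Few cliques are lost. -/
theorem card_lostI (hc : 1 ≤ c) (hL : 1 ≤ L) (hP : Par c U L) {r : ℕ} (hr : c + 1 = 2 * r)
    (lab : K → (U × U) ⊕ ℝ)
    {M : ℕ → Fin w → App U} (hM : ∀ r j, Good c L (M r j)) (I : Ins K w) :
    #(lostI c L lab M I) ≤ LL c L w r := by
  have hg : ∀ i, Good c L (srcApp lab M (I.src i)) := fun i => good_src hc hL lab hM _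
  choose Z hZ1 hZ2 hZ3 using hg
  set E : Finset (U × U) := univ.biUnion (fun i => prs (Z i)) with hE
  have hEsymm : ∀ a b, (a, b) ∈ E → (b, a) ∈ E := by
    intro a b h
    rw [hE, mem_biUnion] at h ⊢
    obtain ⟨i, _, h⟩ := h
    rw [prs, mem_biUnion] at h
    obtain ⟨C, hC, h⟩ := h
    rw [mem_product] at h
    exact ⟨i, mem_univ _, mem_prs hC h.2 h.1⟩
  have hcores : ∀ j, ∃ Z' : Finset (Finset U), #Z' ≤ KK c L ∧ (∀ C ∈ Z', #C ≤ c + 1) ∧
      ∀ S : Finset U, #S = c + 1 → ev c (mk L (hfun c lab M I j)) (cl S) <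
        I.f (fun i => ev c (srcApp lab M (I.src i)) (cl S)) j → ∃ C ∈ Z',
          ∀ a ∈ S, ∀ b ∈ S, a ≠ b → (a, b) ∉ E → a ∈ C ∧ b ∈ C := by
    intro j
    obtain ⟨Z', h1, h2, h3⟩ := lost_cores hc hL hP (hfun c lab M I j) E hEsymm
      ({S : Finset U | #S = c + 1 ∧ ev c (mk L (hfun c lab M I j)) (cl S) <
        I.f (fun i => ev c (srcApp lab M (I.src i)) (cl S)) j} : Finset _) (by
      intro S hS
      rw [mem_filter] at hS
      obtain ⟨-, hS1, hS2⟩ := hS
      refine ⟨hS1, I.f (fun i => ev c (srcApp lab M (I.src i)) (cl S)) j, ?_, ?_⟩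
      · intro T hT
        refine lt_of_le_of_lt (le_ev _ ?_ (cq_cl hT.1)) hS2
        have := card_lt_card hT
        omega
      · intro χ hχ
        apply I.mono
        intro i
        obtain ⟨T, hT1, hT2, hT3, hT4⟩ := exists_active c (srcApp lab M (I.src i)) (cl S)
        have hTZ := hZ3 i T hT1 hT4
        simp only
        rw [← hT3]
        apply le_ev _ hT1
        intro a ha b hb hab
        have h4 := mem_cl.1 (hT2 a ha b hb hab)
        rw [mem_sepX]
        refine hχ a h4.1 b h4.2.1 hab ?_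
        rw [hE, mem_biUnion]
        exact ⟨i, mem_univ _, mem_prs hTZ ha hb⟩)
    refine ⟨Z', h1, h2, fun S hS1 hS2 => h3 S ?_⟩
    exact mem_filter.2 ⟨mem_univ _, hS1, hS2⟩
  choose Z' hZ'1 hZ'2 hZ'3 using hcores
  set H : Finset (U × U) := E ∪ univ.biUnion (fun j => prs (Z' j)) with hH
  have hsub : lostI c L lab M I ⊆
      ({S : Finset U | #S = 2 * r ∧ ∀ a ∈ S, ∀ b ∈ S, a ≠ b → (a, b) ∈ H} : Finset _) := by
    intro S hS
    rw [lostI, mem_filter] at hS
    obtain ⟨-, hS1, j, hS2⟩ := hS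
    obtain ⟨C, hC, h1⟩ := hZ'3 j S hS1 hS2
    rw [mem_filter]
    refine ⟨mem_univ _, by omega, ?_⟩
    intro a ha b hb hab
    rw [hH, mem_union]
    by_cases h2 : (a, b) ∈ E
    · exact Or.inl h2
    · right
      obtain ⟨h3, h4⟩ := h1 a ha b hb hab h2
      rw [mem_biUnion]
      exact ⟨j, mem_univ _, mem_prs hC h3 h4⟩
  have c1 : #E ≤ w * (KK c L * (c + 1) ^ 2) := by
    refine card_biUnion_le.trans ?_
    calc _ ≤ ∑ _i : Fin w, KK c L * (c + 1) ^ 2 := by
          apply sum_le_sum
          intro i _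
          exact (card_prs (hZ2 i)).trans (Nat.mul_le_mul_right _ (hZ1 i))
      _ = _ := by simp
  have c2 : #(univ.biUnion (fun j => prs (Z' j))) ≤ w * (KK c L * (c + 1) ^ 2) := by
    refine card_biUnion_le.trans ?_
    calc _ ≤ ∑ _i : Fin w, KK c L * (c + 1) ^ 2 := by
          apply sum_le_sum
          intro i _
          exact (card_prs (hZ'2 i)).trans (Nat.mul_le_mul_right _ (hZ'1 i))
      _ = _ := by simp
  have c3 : #H ≤ 2 * (w * (KK c L * (c + 1) ^ 2)) := by
    have := card_union_le E (univ.biUnion (fun j => prs (Z' j)))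
    rw [hH]
    omega
  calc _ ≤ _ := card_le_card hsub
    _ ≤ #H ^ r := card_cliques H r
    _ ≤ _ := Nat.pow_le_pow_left c3 r

/-! ### Lists of instructions -/

/-- the approximators after a list of instructions -/
noncomputable def appR (c L : ℕ) (lab : K → (U × U) ⊕ ℝ) (W : List (Ins K w))
    (M : ℕ → Fin w → App U) : ℕ → Fin w → App U :=
  W.foldl (fun M I => nextApp c L lab M I) M

theorem good_appR (hc : 1 ≤ c) (hL : 1 ≤ L) (hP : Par c U L) (lab : K → (U × U) ⊕ ℝ) :
    ∀ (W : List (Ins K w)) (M : ℕ → Fin w → App U), (∀ r j, Good c L (M r j)) →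
      ∀ r j, Good c L (appR c L lab W M r j)
  | [], _, hM => hM
  | I :: W, _, hM => good_appR hc hL hP lab W _ (good_next hc hL hP lab hM I)

theorem exists_bad (hc : 1 ≤ c) (hL : 1 ≤ L) (hP : Par c U L) (lab : K → (U × U) ⊕ ℝ) :
    ∀ (W : List (Ins K w)) (M : ℕ → Fin w → App U), ∃ Bd : Finset (U → Fin c),
      #Bd ≤ W.length * (w * (KK c L * dd c U L 0)) ∧
      ∀ χ ∉ Bd, ∀ σ, Below c M (sepX χ) σ →
        Below c (appR c L lab W M) (sepX χ) (execs (xin lab (sepX χ)) W σ)
  | [], M => ⟨∅, by simp, fun χ _ σ h => h⟩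
  | I :: W, M => by
    obtain ⟨Bd, h1, h2⟩ := exists_bad hc hL hP lab W (nextApp c L lab M I)
    refine ⟨badI c L lab M I ∪ Bd, ?_, ?_⟩
    · refine (card_union_le _ _).trans ?_
      rw [List.length_cons, add_mul, one_mul, add_comm]
      exact Nat.add_le_add h1 (card_badI hc hL hP lab M I)
    · intro χ hχ σ hσ
      rw [mem_union, not_or] at hχ
      exact h2 χ hχ.2 _ (below_next lab hσ I hχ.1)

theorem exists_lost (hc : 2 ≤ c) (hL : 1 ≤ L) (hP : Par c U L) {r : ℕ} (hr : c + 1 = 2 * r)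
    (lab : K → (U × U) ⊕ ℝ) :
    ∀ (W : List (Ins K w)) (M : ℕ → Fin w → App U), (∀ r j, Good c L (M r j)) →
      ∃ Ls : Finset (Finset U), #Ls ≤ W.length * LL c L w r ∧
      ∀ S : Finset U, #S = c + 1 → S ∉ Ls → ∀ σ, Above c M (cl S) σ →
        Above c (appR c L lab W M) (cl S) (execs (xin lab (cl S)) W σ)
  | [], M, _ => ⟨∅, by simp, fun t _ _ σ h => h⟩
  | I :: W, M, hM => by
    obtain ⟨Ls, h1, h2⟩ := exists_lost hc hL hP hr lab W (nextApp c L lab M I)
      (good_next (by omega) hL hP lab hM I)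
    refine ⟨lostI c L lab M I ∪ Ls, ?_, ?_⟩
    · refine (card_union_le _ _).trans ?_
      rw [List.length_cons, add_mul, one_mul, add_comm]
      exact Nat.add_le_add h1 (card_lostI (by omega) hL hP hr lab hM I)
    · intro S hS hl σ hσ
      rw [mem_union, not_or] at hl
      exact h2 S hS hl.2 _ (above_next hc lab hσ I hS hl.1)

/-- initial approximators -/
def initA (σ : Mem w) (r : ℕ) (j : Fin w) : App U := fun _ => σ r j

open Classical in
/-- few sets contain an active set -/
theorem card_touch (Z : Finset (Finset U)) :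
    #{S : Finset U | #S = c + 1 ∧ ∃ T ∈ Z, T.Nonempty ∧ T ⊆ S} ≤
      #Z * Fintype.card U ^ c := by
  have h1 : ({S : Finset U | #S = c + 1 ∧ ∃ T ∈ Z, T.Nonempty ∧ T ⊆ S} : Finset _) ⊆
      (Z.filter (fun T => T.Nonempty)).biUnion (fun T => if h : T.Nonempty then
        (powersetCard c (univ : Finset U)).image (fun S' => insert h.choose S') else ∅) := by
    intro S hS
    rw [mem_filter] at hS
    obtain ⟨-, hS1, T, hT, hTn, hTS⟩ := hS
    rw [mem_biUnion]
    refine ⟨T, mem_filter.2 ⟨hT, hTn⟩, ?_⟩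
    rw [dif_pos hTn]
    have h2 := hTS hTn.choose_spec
    refine mem_image.2 ⟨S.erase hTn.choose, mem_powersetCard.2 ⟨subset_univ _, ?_⟩,
      insert_erase h2⟩
    rw [card_erase_of_mem h2, hS1]
    rfl
  calc _ ≤ ∑ _T ∈ Z.filter (fun T => T.Nonempty), Fintype.card U ^ c := by
        refine (card_le_card h1).trans (card_biUnion_le.trans (sum_le_sum ?_))
        intro T hT
        rw [dif_pos (mem_filter.1 hT).2]
        refine card_image_le.trans ?_
        rw [card_powersetCard, card_univ]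
        exact Nat.choose_le_pow _ _
    _ = #(Z.filter (fun T => T.Nonempty)) * Fintype.card U ^ c := by
        rw [sum_const, smul_eq_mul]
    _ ≤ _ := Nat.mul_le_mul_right _ (card_filter_le _ _)

open Classical in
/-- The main lemma: a place of the memory separates few pairs of a clique and a colouring. -/
theorem pairs_le (hc : 2 ≤ c) (hL : 1 ≤ L) (hP : Par c U L) {r : ℕ} (hr : c + 1 = 2 * r)
    (lab : K → (U × U) ⊕ ℝ) (σ : Mem w)
    (T : Finset (Finset U)) (hT : ∀ S ∈ T, #S = c + 1) (W : List (Ins K w))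
    (s : K ⊕ (ℕ × Fin w)) (θ : ℝ) :
    #{p ∈ T ×ˢ (univ : Finset (U → Fin c)) |
        θ ≤ rd (xin lab (cl p.1)) (execs (xin lab (cl p.1)) W σ) s ∧
        rd (xin lab (sepX p.2)) (execs (xin lab (sepX p.2)) W σ) s < θ} ≤
      (W.length * LL c L w r + KK c L * Fintype.card U ^ c) * c ^ Fintype.card U +
      #T * (W.length * (w * (KK c L * dd c U L 0))) := by
  have hc1 : 1 ≤ c := by omega
  have hM0 : ∀ r j, Good c L (initA (U := U) σ r j) := fun r j => good_const hc1 hL _
  obtain ⟨Bd, hB1, hB2⟩ := exists_bad hc1 hL hP lab W (initA (U := U) σ)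
  obtain ⟨Ls, hL1, hL2'⟩ := exists_lost hc hL hP hr lab W (initA (U := U) σ) hM0
  set M := appR c L lab W (initA (U := U) σ) with hM
  have hgood := good_src hc1 hL lab (good_appR hc1 hL hP lab W _ hM0) s
  rw [← hM] at hgood
  set A := srcApp lab M s with hA
  obtain ⟨Z, hZ1, _, hZ3⟩ := hgood
  set Tc : Finset (Finset U) := {S : Finset U | #S = c + 1 ∧ ∃ T ∈ Z, T.Nonempty ∧ T ⊆ S}
    with hTc
  have hsub : ({p ∈ T ×ˢ (univ : Finset (U → Fin c)) |
        θ ≤ rd (xin lab (cl p.1)) (execs (xin lab (cl p.1)) W σ) s ∧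
        rd (xin lab (sepX p.2)) (execs (xin lab (sepX p.2)) W σ) s < θ} : Finset _) ⊆
      ((Ls ∪ Tc) ×ˢ (univ : Finset (U → Fin c))) ∪ T ×ˢ Bd := by
    rintro ⟨S, χ⟩ hp
    rw [mem_filter, mem_product] at hp
    obtain ⟨⟨ht, -⟩, h1, h2⟩ := hp
    simp only at ht h1 h2
    rw [mem_union, mem_product, mem_product, mem_union]
    by_contra hcon
    push Not at hcon
    obtain ⟨h3, h4⟩ := hcon
    have h5 : χ ∉ Bd := h4 ht
    have h6 : S ∉ Ls := fun h => h3 (Or.inl h) (mem_univ _)
    have h7 : S ∉ Tc := fun h => h3 (Or.inr h) (mem_univ _)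
    have h8 : Below c M (sepX χ) (execs (xin lab (sepX χ)) W σ) :=
      hB2 χ h5 σ (fun r j => ev_le _ (fun _ _ _ => le_rfl))
    have h9 : Above c M (cl S) (execs (xin lab (cl S)) W σ) :=
      hL2' S (hT S ht) h6 σ (fun r j => le_ev (initA (U := U) σ r j) (T := ∅) (by simp)
        (by intro a ha; simp at ha))
    have h10 := below_src lab h8 s
    have h11 := above_src hc lab h9 s
    rw [← hA] at h10 h11
    obtain ⟨T0, hT1, hT2, hT3, hT4⟩ := exists_active c A (cl S)
    have hlt : ev c A (sepX χ) < A T0 := by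
      rw [hT3]
      exact lt_of_le_of_lt h10 (lt_of_lt_of_le h2 (h1.trans h11))
    have hncq : ¬ Cq (sepX χ) T0 := fun h12 => absurd (le_ev A hT1 h12) (not_le.2 hlt)
    have hex : ∃ a ∈ T0, ∃ b ∈ T0, a ≠ b := by
      by_contra hcon2
      push Not at hcon2
      exact hncq (fun a ha b hb hab => absurd (hcon2 a ha b hb) hab)
    obtain ⟨a0, ha0, b0, hb0, hab0⟩ := hex
    apply h7
    rw [hTc, mem_filter]
    refine ⟨mem_univ _, hT S ht, T0, hZ3 T0 hT1 hT4, ⟨a0, ha0⟩, ?_⟩
    intro a ha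
    by_cases haa : a = a0
    · rw [haa]
      exact (mem_cl.1 (hT2 a0 ha0 b0 hb0 hab0)).1
    · exact (mem_cl.1 (hT2 a ha a0 ha0 haa)).1
  refine (card_le_card hsub).trans ((card_union_le _ _).trans ?_)
  rw [card_product, card_product, card_univ, Fintype.card_fun, Fintype.card_fin]
  refine Nat.add_le_add (Nat.mul_le_mul_right _ ?_) (Nat.mul_le_mul_left _ hB1)
  refine (card_union_le _ _).trans (Nat.add_le_add hL1 ?_)
  exact (card_touch Z).trans (Nat.mul_le_mul_right _ hZ1)

end Pool.Agent.L5helper51.WK
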