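import Pool.Agent.L5helper51.WK.Gate

/-!
# Choice of the parameters
-/

namespace Pool.Agent.L5helper51.WK

open Finset

theorem bern (x n : ℕ) : x ^ n * (x + n) ≤ (x + 1) ^ n * x := by
  induction n with
  | zero => simp
  | succ n ih =>
    calc x ^ (n + 1) * (x + (n + 1)) = x ^ n * (x * (x + (n + 1))) := by ring
      _ ≤ x ^ n * ((x + 1) * (x + n)) := Nat.mul_le_mul_left _ (by nlinarith)
      _ = (x + 1) * (x ^ n * (x + n)) := by ring
      _ ≤ (x + 1) * ((x + 1) ^ n * x) := Nat.mul_le_mul_left _ ih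
      _ = _ := by ring

theorem half (q : ℕ) (hq : 1 ≤ q) : 2 * (q - 1) ^ q ≤ q ^ q := by
  obtain ⟨x, rfl⟩ : ∃ x, q = x + 1 := ⟨q - 1, by omega⟩
  rw [Nat.add_sub_cancel]
  rcases Nat.eq_zero_or_pos x with rfl | hx
  · simp
  · have h1 := bern x (x + 1)
    have h2 : x * (2 * x ^ (x + 1)) ≤ x * (x + 1) ^ (x + 1) := by
      calc x * (2 * x ^ (x + 1)) = x ^ (x + 1) * (2 * x) := by ring
        _ ≤ x ^ (x + 1) * (x + (x + 1)) := Nat.mul_le_mul_left _ (by omega)
        _ ≤ (x + 1) ^ (x + 1) * x := h1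
        _ = _ := by ring
    exact Nat.le_of_mul_le_mul_left h2 hx

theorem half_pow (q k : ℕ) (hq : 1 ≤ q) : 2 ^ k * (q - 1) ^ (q * k) ≤ q ^ (q * k) := by
  rw [pow_mul, pow_mul, ← mul_pow]
  exact Nat.pow_le_pow_left (half q hq) k

/-- the basic tolerance is small -/
theorem del_small {c : ℕ} (hc : 1 ≤ c) (U : Type*) [Fintype U] (k : ℕ) :
    2 ^ k * del c U (c ^ (c + 1) * k) ≤ c ^ Fintype.card U := by
  have hq : 1 ≤ c ^ (c + 1) := Nat.one_le_pow _ _ hc
  set q := c ^ (c + 1) with hqd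
  have h1 : del c U (q * k) * q ^ (q * k) ≤ (q - 1) ^ (q * k) * c ^ Fintype.card U :=
    Nat.div_mul_le_self _ _
  have h2 : 2 ^ k * del c U (q * k) * q ^ (q * k) ≤ c ^ Fintype.card U * q ^ (q * k) := by
    calc 2 ^ k * del c U (q * k) * q ^ (q * k) = 2 ^ k * (del c U (q * k) * q ^ (q * k)) := by ring
      _ ≤ 2 ^ k * ((q - 1) ^ (q * k) * c ^ Fintype.card U) := Nat.mul_le_mul_left _ h1
      _ = (2 ^ k * (q - 1) ^ (q * k)) * c ^ Fintype.card U := by ring
      _ ≤ q ^ (q * k) * c ^ Fintype.card U := Nat.mul_le_mul_right _ (half_pow q k hq)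
      _ = _ := by ring
  exact Nat.le_of_mul_le_mul_right h2 (by positivity)

/-- powers of two grow faster -/
theorem exists_a (m B : ℕ) : ∃ a, 1 ≤ a ∧ B * a ^ m ≤ 2 ^ a := by
  have h1 := tendsto_pow_const_div_const_pow_of_one_lt m (show (1 : ℝ) < 2 by norm_num)
  have h2 : ∀ᶠ a : ℕ in Filter.atTop, ((a : ℝ) ^ m / 2 ^ a) < 1 / (B + 1) := by
    apply h1.eventually_lt_const
    positivity
  obtain ⟨a, h3, h4⟩ := (h2.and (Filter.eventually_ge_atTop 1)).exists
  refine ⟨a, h4, ?_⟩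
  rw [div_lt_div_iff₀ (by positivity) (by positivity)] at h3
  have h5 : (B : ℝ) * (a : ℝ) ^ m ≤ 2 ^ a := by
    have : (0 : ℝ) ≤ (a : ℝ) ^ m := by positivity
    nlinarith
  exact_mod_cast h5

set_option maxHeartbeats 4000000 in
/-- The numerical conclusion. -/
theorem num (c r : ℕ) (hc : 2 ≤ c) (hr : c + 1 = 2 * r) : ∃ K : ℕ, 1 ≤ K ∧ ∀ N D g w n : ℕ,
    1 ≤ D → 1 ≤ g → 1 ≤ w → n = N / D →
    (∀ L, 1 ≤ L → Par c (Fin n) L → n.choose (c + 1) * c ^ n ≤
      D * ((g * LL c L w r + KK c L * n ^ c) * c ^ n +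
        n.choose (c + 1) * (g * (w * (KK c L * dd c (Fin n) L 0))))) →
    N ^ (c + 1) ≤ K * (Nat.log 2 N + 1) ^ ((c + 1) ^ 2) * w ^ r * g * D ^ (2 * (c + 1)) := by
  set s := c + 1 with hs
  set q := c ^ s with hq
  have hq1 : 1 ≤ q := Nat.one_le_pow _ _ (by omega)
  obtain ⟨a, ha1, ha⟩ := exists_a (2 * s) ((s * q + 1) ^ (2 * s) * (4 * c ^ c) * 2 ^ (3 * s + 3))
  -- constants
  set B := s * (q * a) + 1 with hB
  set F := 4 * 2 ^ s * s.factorial with hF
  set K := (2 * s) ^ s + (2 * (2 * F * B ^ s)) ^ s + 2 ^ s * (F * (2 * (B ^ s * s ^ 2)) ^ r)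
    with hK
  have hK1 : 1 ≤ K := by
    have : 1 ≤ (2 * s) ^ s := Nat.one_le_pow _ _ (by omega)
    omega
  refine ⟨K, hK1, ?_⟩
  intro N D g w n hD hg hw hn hmain
  set ℓ := Nat.log 2 N + 1 with hℓ
  have hℓ1 : 1 ≤ ℓ := by omega
  have hN2 : N < 2 ^ ℓ := Nat.lt_pow_succ_log_self (by norm_num) N
  have one1 : 1 ≤ ℓ ^ (s ^ 2) := Nat.one_le_pow _ _ hℓ1
  have one2 : 1 ≤ w ^ r := Nat.one_le_pow _ _ hw
  have one3 : 1 ≤ D ^ (2 * s) := Nat.one_le_pow _ _ hD
  -- a small left side is enough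
  have fin0 : ∀ x : ℕ, N ^ s ≤ x * ℓ ^ (s ^ 2) * w ^ r * g * D ^ (2 * s) → x ≤ K →
      N ^ s ≤ K * ℓ ^ (s ^ 2) * w ^ r * g * D ^ (2 * s) := by
    intro x h1 h2
    refine h1.trans ?_
    gcongr
  by_cases c1 : N ≤ D
  · refine fin0 1 ?_ hK1
    calc N ^ s ≤ D ^ s := Nat.pow_le_pow_left c1 s
      _ ≤ D ^ (2 * s) := Nat.pow_le_pow_right hD (by omega)
      _ = 1 * 1 * 1 * 1 * D ^ (2 * s) := by ring
      _ ≤ _ := by gcongr
  push Not at c1
  by_cases c2 : N ^ s ≤ g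
  · refine fin0 1 ?_ hK1
    calc N ^ s ≤ g := c2
      _ = 1 * 1 * 1 * g * 1 := by ring
      _ ≤ _ := by gcongr
  push Not at c2
  by_cases c3 : N ^ 2 ≤ w
  · refine fin0 1 ?_ hK1
    calc N ^ s = (N ^ 2) ^ r := by rw [hr, pow_mul]
      _ ≤ w ^ r := Nat.pow_le_pow_left c3 r
      _ = 1 * 1 * w ^ r * 1 * 1 := by ring
      _ ≤ _ := by gcongr
  push Not at c3
  have hND : N ≤ (n + 1) * D := by
    rw [hn]
    have h1 := Nat.div_add_mod N D
    have h2 := Nat.mod_lt N hD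
    nlinarith
  by_cases c4 : n + 1 ≤ 2 * s
  · refine fin0 ((2 * s) ^ s) ?_ (by omega)
    calc N ^ s ≤ (2 * s * D) ^ s := Nat.pow_le_pow_left (hND.trans (Nat.mul_le_mul_right _ c4)) s
      _ = (2 * s) ^ s * D ^ s := mul_pow _ _ _
      _ ≤ (2 * s) ^ s * D ^ (2 * s) :=
          Nat.mul_le_mul_left _ (Nat.pow_le_pow_right hD (by omega))
      _ = (2 * s) ^ s * 1 * 1 * 1 * D ^ (2 * s) := by ring
      _ ≤ _ := by gcongr
  push Not at c4
  set k := a * ℓ with hk
  set L := q * k with hL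
  have hL1 : 1 ≤ L := Nat.mul_pos hq1 (Nat.mul_pos ha1 hℓ1)
  have hsmall : 4 * c ^ c * (s * L + 1) ^ (2 * s) * N ^ (s + 3) ≤ 2 ^ k := by
    have e1 : s * L + 1 ≤ (s * q + 1) * a * 2 ^ ℓ := by
      have h1 : ℓ ≤ 2 ^ ℓ := Nat.lt_two_pow_self.le
      have h2 : 1 ≤ a * ℓ := Nat.mul_pos ha1 hℓ1
      calc s * L + 1 = s * (q * (a * ℓ)) + 1 := by rw [hL]
        _ ≤ s * (q * (a * ℓ)) + a * ℓ := by omega
        _ = (s * q + 1) * a * ℓ := by ring
        _ ≤ _ := Nat.mul_le_mul_left _ h1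
    calc 4 * c ^ c * (s * L + 1) ^ (2 * s) * N ^ (s + 3)
        ≤ 4 * c ^ c * ((s * q + 1) * a * 2 ^ ℓ) ^ (2 * s) * (2 ^ ℓ) ^ (s + 3) := by gcongr
      _ = ((s * q + 1) ^ (2 * s) * (4 * c ^ c) * a ^ (2 * s)) * 2 ^ (ℓ * (3 * s + 3)) := by
          rw [mul_pow, mul_pow, ← pow_mul, ← pow_mul, show ℓ * (3 * s + 3) =
            ℓ * (2 * s) + ℓ * (s + 3) by ring, pow_add]
          ring
      _ ≤ 2 ^ k := by
          -- write `2 ^ k` as a product
          have h1 : ((s * q + 1) ^ (2 * s) * (4 * c ^ c) * a ^ (2 * s)) * 2 ^ (3 * s + 3) ≤ 2 ^ a := by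
            calc _ = (s * q + 1) ^ (2 * s) * (4 * c ^ c) * 2 ^ (3 * s + 3) * a ^ (2 * s) := by ring
              _ ≤ _ := ha
          have h2 : 1 ≤ (s * q + 1) ^ (2 * s) * (4 * c ^ c) * a ^ (2 * s) := by
            have h3 : 0 < c := by omega
            have h4 : 0 < a := ha1
            have : 0 < (s * q + 1) ^ (2 * s) * (4 * c ^ c) * a ^ (2 * s) := by positivity
            exact this
          have e5 : 2 ^ (ℓ * (3 * s + 3)) = (2 ^ (3 * s + 3)) ^ ℓ := by
            rw [mul_comm, pow_mul]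
          rw [e5]
          calc ((s * q + 1) ^ (2 * s) * (4 * c ^ c) * a ^ (2 * s)) * (2 ^ (3 * s + 3)) ^ ℓ
              ≤ ((s * q + 1) ^ (2 * s) * (4 * c ^ c) * a ^ (2 * s)) ^ ℓ * (2 ^ (3 * s + 3)) ^ ℓ := by
                refine Nat.mul_le_mul_right _ ?_
                exact Nat.le_self_pow (by omega) _
            _ = (((s * q + 1) ^ (2 * s) * (4 * c ^ c) * a ^ (2 * s)) * 2 ^ (3 * s + 3)) ^ ℓ := by
                rw [← mul_pow]
            _ ≤ (2 ^ a) ^ ℓ := Nat.pow_le_pow_left h1 ℓ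
            _ = 2 ^ k := by rw [← pow_mul]
  have hdel := del_small (show 1 ≤ c by omega) (Fin n) k
  rw [← hs, ← hq, ← hL, Fintype.card_fin] at hdel
  have hLs : (L + 1) ^ s ≤ (s * L + 1) ^ s :=
    Nat.pow_le_pow_left (by nlinarith) s
  have hKK : KK c L = (s * L + 1) ^ s := rfl
  have hNpos : 1 ≤ N := by omega
  have hcn : 0 < c ^ n := by
    have : 0 < c := by omega
    positivity
  have hPar : Par c (Fin n) L := by
    rw [Par, Fintype.card_fin]
    rcases Nat.eq_zero_or_pos (del c (Fin n) L) with h0 | h0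
    · rw [h0]
      simpa using hcn
    · have h1 : 2 * ((L + 1) ^ s * c ^ c) ≤ 2 ^ k := by
        calc 2 * ((L + 1) ^ s * c ^ c) ≤ 4 * ((s * L + 1) ^ s * c ^ c) := by gcongr; norm_num
          _ = 4 * c ^ c * (s * L + 1) ^ s * 1 := by ring
          _ ≤ 4 * c ^ c * (s * L + 1) ^ (2 * s) * N ^ (s + 3) := by
              gcongr
              · omega
              · omega
              · exact Nat.one_le_pow _ _ hNpos
          _ ≤ _ := hsmall
      have h2 : 2 * ((L + 1) ^ s * del c (Fin n) L * c ^ c) ≤ c ^ n := by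
        calc 2 * ((L + 1) ^ s * del c (Fin n) L * c ^ c)
            = 2 * ((L + 1) ^ s * c ^ c) * del c (Fin n) L := by ring
          _ ≤ 2 ^ k * del c (Fin n) L := Nat.mul_le_mul_right _ h1
          _ ≤ _ := hdel
      have h3 : 0 < (L + 1) ^ s * del c (Fin n) L * c ^ c := by
        have : 0 < c := by omega
        positivity
      rw [← hs]
      omega
  have hm := hmain L hL1 hPar
  -- the error term
  have herr : 4 * (D * (g * (w * (KK c L * dd c (Fin n) L 0)))) ≤ c ^ n := by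
    have e : dd c (Fin n) L 0 = (L + 1) ^ s * del c (Fin n) L := by
      rw [dd, Nat.sub_zero]
    rw [e]
    calc 4 * (D * (g * (w * (KK c L * ((L + 1) ^ s * del c (Fin n) L)))))
        = (4 * (D * (g * (w * (KK c L * (L + 1) ^ s))))) * del c (Fin n) L := by ring
      _ ≤ 2 ^ k * del c (Fin n) L := by
          refine Nat.mul_le_mul_right _ ?_
          calc 4 * (D * (g * (w * (KK c L * (L + 1) ^ s))))
              ≤ 4 * (N * (N ^ s * (N ^ 2 * ((s * L + 1) ^ s * (s * L + 1) ^ s)))) := by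
                rw [hKK]
                gcongr
            _ = 4 * 1 * (s * L + 1) ^ (2 * s) * N ^ (s + 3) := by
                rw [two_mul s, pow_add, pow_add]
                ring
            _ ≤ 4 * c ^ c * (s * L + 1) ^ (2 * s) * N ^ (s + 3) := by
                gcongr
                exact Nat.one_le_pow _ _ (by omega)
            _ ≤ _ := hsmall
      _ ≤ _ := hdel
  have hm2 : 3 * n.choose s ≤ 4 * (D * (g * LL c L w r + KK c L * n ^ c)) := by
    have h1 : 4 * (n.choose s * c ^ n) ≤ 4 * (D * (g * LL c L w r + KK c L * n ^ c)) * c ^ n +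
        n.choose s * c ^ n := by
      calc 4 * (n.choose s * c ^ n) ≤ 4 * (D * ((g * LL c L w r + KK c L * n ^ c) * c ^ n +
            n.choose s * (g * (w * (KK c L * dd c (Fin n) L 0))))) := Nat.mul_le_mul_left _ hm
        _ = 4 * (D * (g * LL c L w r + KK c L * n ^ c)) * c ^ n +
            n.choose s * (4 * (D * (g * (w * (KK c L * dd c (Fin n) L 0))))) := by ring
        _ ≤ _ := Nat.add_le_add_left (Nat.mul_le_mul_left _ herr) _
    have h2 : (3 * n.choose s) * c ^ n ≤ (4 * (D * (g * LL c L w r + KK c L * n ^ c))) * c ^ n := by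
      have e1 : (3 * n.choose s) * c ^ n = 3 * (n.choose s * c ^ n) := by ring
      rw [e1]
      omega
    exact Nat.le_of_mul_le_mul_right h2 hcn
  have hch : n ^ s ≤ 2 ^ s * (s.factorial * n.choose s) := by
    have h1 : ((n + 1 - s : ℕ) : ℕ) ^ s ≤ s.factorial * n.choose s := by
      have := Nat.pow_sub_le_descFactorial n s
      rwa [Nat.descFactorial_eq_factorial_mul_choose] at this
    calc n ^ s ≤ (2 * (n + 1 - s)) ^ s := Nat.pow_le_pow_left (by omega) s
      _ = 2 ^ s * (n + 1 - s) ^ s := mul_pow _ _ _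
      _ ≤ _ := Nat.mul_le_mul_left _ h1
  have hm3 : 3 * n ^ s ≤ F * (D * (g * LL c L w r + KK c L * n ^ c)) := by
    calc 3 * n ^ s ≤ 3 * (2 ^ s * (s.factorial * n.choose s)) := Nat.mul_le_mul_left _ hch
      _ = 2 ^ s * s.factorial * (3 * n.choose s) := by ring
      _ ≤ 2 ^ s * s.factorial * (4 * (D * (g * LL c L w r + KK c L * n ^ c))) :=
          Nat.mul_le_mul_left _ hm2
      _ = _ := by rw [hF]; ring
  have hBL : s * L + 1 ≤ B * ℓ := by
    calc s * L + 1 = s * (q * a) * ℓ + 1 := by rw [hL, hk]; ring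
      _ ≤ s * (q * a) * ℓ + ℓ := by omega
      _ = _ := by rw [hB]; ring
  have hKKB : KK c L ≤ B ^ s * ℓ ^ s := by
    rw [hKK, ← mul_pow]
    exact Nat.pow_le_pow_left hBL s
  have hN2n : N ≤ 2 * n * D := by
    refine hND.trans (Nat.mul_le_mul_right _ (by omega))
  by_cases c5 : n ≤ F * (D * KK c L)
  · -- `n` is small
    refine fin0 ((2 * (2 * F * B ^ s)) ^ s) ?_ (by omega)
    calc N ^ s ≤ (2 * (F * (D * (B ^ s * ℓ ^ s))) * D) ^ s := by
          refine Nat.pow_le_pow_left (hN2n.trans ?_) s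
          have : F * (D * KK c L) ≤ F * (D * (B ^ s * ℓ ^ s)) := by gcongr
          gcongr
          exact c5.trans this
      _ ≤ (2 * (2 * F * B ^ s) * ℓ ^ s * D ^ 2) ^ s := by
          apply Nat.pow_le_pow_left
          calc 2 * (F * (D * (B ^ s * ℓ ^ s))) * D = 2 * (F * B ^ s) * ℓ ^ s * D ^ 2 := by ring
            _ ≤ 2 * (2 * F * B ^ s) * ℓ ^ s * D ^ 2 := by
                gcongr
                omega
      _ = (2 * (2 * F * B ^ s)) ^ s * ℓ ^ (s ^ 2) * 1 * 1 * D ^ (2 * s) := by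
          rw [mul_pow, mul_pow, ← pow_mul, ← pow_mul, sq]
          ring
      _ ≤ _ := by gcongr
  · push Not at c5
    have h1 : F * (D * (KK c L * n ^ c)) ≤ n ^ s := by
      calc F * (D * (KK c L * n ^ c)) = (F * (D * KK c L)) * n ^ c := by ring
        _ ≤ n * n ^ c := Nat.mul_le_mul_right _ c5.le
        _ = n ^ s := by rw [hs, pow_succ]; ring
    have h2 : n ^ s ≤ F * (D * (g * LL c L w r)) := by
      have e : F * (D * (g * LL c L w r + KK c L * n ^ c)) =
        F * (D * (g * LL c L w r)) + F * (D * (KK c L * n ^ c)) := by ring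
      rw [e] at hm3
      omega
    have h3 : LL c L w r ≤ (2 * (B ^ s * s ^ 2)) ^ r * ℓ ^ (s ^ 2) * w ^ r := by
      rw [LL, ← hs]
      calc (2 * (w * (KK c L * s ^ 2))) ^ r ≤ (2 * (w * (B ^ s * ℓ ^ s * s ^ 2))) ^ r := by gcongr
        _ = (2 * (B ^ s * s ^ 2)) ^ r * (ℓ ^ s) ^ r * w ^ r := by
            have e8 : 2 * (w * (B ^ s * ℓ ^ s * s ^ 2)) = (2 * (B ^ s * s ^ 2)) * ℓ ^ s * w := by
              ring
            rw [e8, mul_pow, mul_pow]
        _ ≤ (2 * (B ^ s * s ^ 2)) ^ r * ℓ ^ (s ^ 2) * w ^ r := by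
            have e7 : (ℓ ^ s) ^ r ≤ ℓ ^ (s ^ 2) := by
              rw [← pow_mul]
              apply Nat.pow_le_pow_right hℓ1
              rw [sq]
              exact Nat.mul_le_mul_left _ (by omega)
            exact Nat.mul_le_mul_right _ (Nat.mul_le_mul_left _ e7)
    refine fin0 (2 ^ s * (F * (2 * (B ^ s * s ^ 2)) ^ r)) ?_ (by omega)
    calc N ^ s ≤ (2 * n * D) ^ s := Nat.pow_le_pow_left hN2n s
      _ = 2 ^ s * D ^ s * n ^ s := by rw [mul_pow, mul_pow]; ring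
      _ ≤ 2 ^ s * D ^ s * (F * (D * (g * ((2 * (B ^ s * s ^ 2)) ^ r * ℓ ^ (s ^ 2) * w ^ r)))) := by
          refine Nat.mul_le_mul_left _ (h2.trans ?_)
          gcongr
      _ = 2 ^ s * (F * (2 * (B ^ s * s ^ 2)) ^ r) * ℓ ^ (s ^ 2) * w ^ r * g * D ^ (s + 1) := by
          rw [pow_succ]
          ring
      _ ≤ _ := by
          apply Nat.mul_le_mul
          · gcongr
          · exact Nat.pow_le_pow_right hD (by omega)

end Pool.Agent.L5helper51.WK
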