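import Pool.Agent.L5helper51.WG.Count

/-!
# Cores of families of sets, counting of colourings and of cliques
-/

namespace Pool.Agent.L5helper51.WK

open Finset
open Pool.Agent.L5helper51.WG (hit)

variable {U : Type*} [Fintype U] [DecidableEq U]

open Classical in
/-- The tree of cores. -/
theorem cores_aux (F : Finset (Finset U)) (fin : Finset U → Finset U → Prop) (s L : ℕ)
    (hs : ∀ S ∈ F, #S ≤ s) (hfin : ∀ S ∈ F, fin S S)
    (hno : ∀ C : Finset U, ∀ M ⊆ F, (∀ S ∈ M, C ⊆ S ∧ ¬ fin S C) →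
      (∀ S ∈ M, ∀ S' ∈ M, S ≠ S' → Disjoint (S \ C) (S' \ C)) → #M < L) (i : ℕ) :
    ∃ Z : Finset (Finset U), #Z ≤ (s * L + 1) ^ i ∧ (∀ C ∈ Z, #C ≤ i) ∧
      ∀ S ∈ F, ∃ C ∈ Z, C ⊆ S ∧ (fin S C ∨ #C = i) := by
  induction i with
  | zero =>
    refine ⟨{∅}, by simp, by simp, fun S _ => ⟨∅, by simp, by simp, Or.inr (by simp)⟩⟩
  | succ i ih =>
    obtain ⟨Z, h1, h2, h3⟩ := ih
    have h4 : ∀ C : Finset U, ∃ H : Finset U, #H ≤ s * L ∧
        ∀ A ∈ (F.filter (fun S => C ⊆ S ∧ ¬ fin S C)).image (fun S => S \ C), ¬ Disjoint A H := by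
      intro C
      apply hit
      · intro A hA
        obtain ⟨S, hS, rfl⟩ := mem_image.1 hA
        exact (card_le_card sdiff_subset).trans (hs S (mem_filter.1 hS).1)
      · intro A hA
        obtain ⟨S, hS, rfl⟩ := mem_image.1 hA
        rw [mem_filter] at hS
        rw [sdiff_nonempty]
        intro h5
        have h6 : S = C := subset_antisymm h5 hS.2.1
        subst h6
        exact hS.2.2 (hfin _ hS.1)
      · intro M hM hd
        have h5 : ∀ A ∈ M, A ∪ C ∈ F ∧ ¬ fin (A ∪ C) C ∧ (A ∪ C) \ C = A := by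
          intro A hA
          obtain ⟨S, hS, rfl⟩ := mem_image.1 (hM hA)
          rw [mem_filter] at hS
          rw [sdiff_union_of_subset hS.2.1]
          exact ⟨hS.1, hS.2.2, rfl⟩
        have h6 : #(M.image (fun A => A ∪ C)) = #M := by
          apply card_image_of_injOn
          intro A hA B hB hAB
          have h7 := (h5 A hA).2.2
          have h8 := (h5 B hB).2.2
          simp only at hAB
          rw [← h7, ← h8, hAB]
        rw [← h6]
        apply hno C
        · intro S hS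
          obtain ⟨A, hA, rfl⟩ := mem_image.1 hS
          exact (h5 A hA).1
        · intro S hS
          obtain ⟨A, hA, rfl⟩ := mem_image.1 hS
          exact ⟨subset_union_right, (h5 A hA).2.1⟩
        · intro S hS S' hS' hne
          obtain ⟨A, hA, rfl⟩ := mem_image.1 hS
          obtain ⟨B, hB, rfl⟩ := mem_image.1 hS'
          rw [(h5 A hA).2.2, (h5 B hB).2.2]
          exact hd A hA B hB (fun h => hne (by rw [h]))
    choose H hH hH2 using h4
    refine ⟨Z ∪ Z.biUnion (fun C => (H C).image (fun v => insert v C)), ?_, ?_, ?_⟩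
    · calc _ ≤ #Z + ∑ C ∈ Z, s * L := by
            refine (card_union_le _ _).trans (Nat.add_le_add_left ?_ _)
            refine card_biUnion_le.trans (sum_le_sum (fun C _ => ?_))
            exact card_image_le.trans (hH C)
        _ = #Z * (s * L + 1) := by rw [sum_const, smul_eq_mul]; ring
        _ ≤ (s * L + 1) ^ i * (s * L + 1) := Nat.mul_le_mul_right _ h1
        _ = _ := (pow_succ _ _).symm
    · intro C hC
      rw [mem_union, mem_biUnion] at hC
      rcases hC with hC | ⟨C', hC', hC⟩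
      · exact (h2 C hC).trans (Nat.le_succ _)
      · obtain ⟨v, _, rfl⟩ := mem_image.1 hC
        exact (card_insert_le _ _).trans (Nat.succ_le_succ (h2 C' hC'))
    · intro S hS
      obtain ⟨C, hC, hCS, h5⟩ := h3 S hS
      by_cases h6 : fin S C
      · exact ⟨C, mem_union_left _ hC, hCS, Or.inl h6⟩
      · have h7 : #C = i := h5.resolve_left h6
        have h8 := hH2 C (S \ C) (mem_image.2 ⟨S, mem_filter.2 ⟨hS, hCS, h6⟩, rfl⟩)
        rw [not_disjoint_iff] at h8
        obtain ⟨v, hv, hvH⟩ := h8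
        rw [mem_sdiff] at hv
        refine ⟨insert v C, mem_union_right _ (mem_biUnion.2 ⟨C, hC, mem_image.2 ⟨v, hvH, rfl⟩⟩),
          insert_subset hv.1 hCS, Or.inr ?_⟩
        rw [card_insert_of_notMem hv.2, h7]

/-- The tree of cores. -/
theorem cores (F : Finset (Finset U)) (fin : Finset U → Finset U → Prop) (s L : ℕ)
    (hs : ∀ S ∈ F, #S ≤ s) (hfin : ∀ S ∈ F, fin S S)
    (hno : ∀ C : Finset U, ∀ M ⊆ F, (∀ S ∈ M, C ⊆ S ∧ ¬ fin S C) →
      (∀ S ∈ M, ∀ S' ∈ M, S ≠ S' → Disjoint (S \ C) (S' \ C)) → #M < L) :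
    ∃ Z : Finset (Finset U), #Z ≤ (s * L + 1) ^ s ∧ (∀ C ∈ Z, #C ≤ s) ∧
      ∀ S ∈ F, ∃ C ∈ Z, C ⊆ S ∧ fin S C := by
  obtain ⟨Z, h1, h2, h3⟩ := cores_aux F fin s L hs hfin hno s
  refine ⟨Z, h1, h2, fun S hS => ?_⟩
  obtain ⟨C, hC, hCS, h4⟩ := h3 S hS
  refine ⟨C, hC, hCS, ?_⟩
  rcases h4 with h4 | h4
  · exact h4
  · have h5 : C = S := eq_of_subset_of_card_le hCS (by rw [h4]; exact hs S hS)
    rw [h5]
    exact hfin S hS

/-- Patterns on disjoint sets are independent. -/
theorem count_pat {V C ι : Type*} [Fintype V] [DecidableEq V] [Fintype C] [DecidableEq C]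
    [Nonempty C] [DecidableEq ι]
    (D : ι → Finset V) (s : ℕ) (I : Finset ι)
    (R : (V → C) → Prop) (P : ι → (V → C) → Prop) (fix : ι → (V → C) → (V → C))
    [DecidablePred R] [∀ i, DecidablePred (P i)]
    (hD : ∀ i ∈ I, #(D i) ≤ s)
    (h1 : ∀ i ∈ I, ∀ χ, R χ → P i (fix i χ))
    (h2 : ∀ i ∈ I, ∀ χ, R χ → ∀ v ∉ D i, fix i χ v = χ v)
    (h3 : ∀ i ∈ I, ∀ χ, R χ → R (fix i χ))
    (h4 : ∀ i ∈ I, ∀ j ∈ I, i ≠ j → ∀ χ, R χ → P i (fix j χ) → P i χ) :
    (Fintype.card C ^ s) ^ #I * #{χ : V → C | R χ ∧ ∀ i ∈ I, ¬ P i χ} ≤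
      (Fintype.card C ^ s - 1) ^ #I * Fintype.card C ^ Fintype.card V := by
  have hc : 1 ≤ Fintype.card C := Fintype.card_pos
  induction I using Finset.induction_on with
  | empty =>
    simp only [card_empty, pow_zero, one_mul]
    refine (card_le_univ _).trans ?_
    rw [Fintype.card_fun]
  | insert j J hj ih =>
    have hjj := mem_insert_self j J
    have ih' := ih (fun i hi => hD i (mem_insert_of_mem hi))
      (fun i hi => h1 i (mem_insert_of_mem hi)) (fun i hi => h2 i (mem_insert_of_mem hi))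
      (fun i hi => h3 i (mem_insert_of_mem hi))
      (fun i hi k hk => h4 i (mem_insert_of_mem hi) k (mem_insert_of_mem hk))
    set q := Fintype.card C ^ s with hq
    have hq1 : 1 ≤ q := Nat.one_le_pow _ _ hc
    set A : (V → C) → Prop := fun χ => R χ ∧ ∀ i ∈ J, ¬ P i χ with hA
    have key : #{χ : V → C | A χ} ≤ q * #{χ : V → C | A χ ∧ P j χ} := by
      apply card_le_mul_card_image_of_maps_to (f := fix j)
      · intro χ hχ
        simp only [mem_filter, mem_univ, true_and, hA] at hχ ⊢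
        refine ⟨⟨h3 j hjj χ hχ.1, fun i hi h5 => ?_⟩, h1 j hjj χ hχ.1⟩
        exact hχ.2 i hi (h4 i (mem_insert_of_mem hi) j hjj (fun h => hj (h ▸ hi)) χ hχ.1 h5)
      · intro χ' _
        have h5 : #(univ : Finset (D j → C)) ≤ q := by
          rw [card_univ, Fintype.card_fun, Fintype.card_coe]
          exact Nat.pow_le_pow_right hc (hD j hjj)
        refine le_trans (card_le_card_of_injOn (fun χ => fun v : D j => χ v)
          (fun _ _ => mem_univ _) ?_) h5
        intro χ hχ ψ hψ h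
        simp only [coe_filter, mem_filter, mem_univ, true_and, Set.mem_ofPred_eq, hA] at hχ hψ
        funext v
        by_cases h6 : v ∈ D j
        · exact congrFun h ⟨v, h6⟩
        · rw [← h2 j hjj χ hχ.1.1 v h6, ← h2 j hjj ψ hψ.1.1 v h6, hχ.2, hψ.2]
    have hsum : #{χ : V → C | A χ ∧ P j χ} + #{χ : V → C | A χ ∧ ¬ P j χ} =
        #{χ : V → C | A χ} := by
      rw [← card_filter_add_card_filter_not (s := ({χ : V → C | A χ} : Finset _))
        (fun χ => P j χ), filter_filter, filter_filter]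
    have e : #{χ : V → C | R χ ∧ ∀ i ∈ insert j J, ¬ P i χ} =
        #{χ : V → C | A χ ∧ ¬ P j χ} := by
      congr 1
      ext χ
      simp only [mem_filter, mem_univ, true_and, mem_insert, forall_eq_or_imp, hA]
      tauto
    have h7 : q * #{χ : V → C | A χ ∧ ¬ P j χ} ≤ (q - 1) * #{χ : V → C | A χ} := by
      obtain ⟨q', hq'⟩ : ∃ q', q = q' + 1 := ⟨q - 1, by omega⟩
      rw [hq', Nat.add_sub_cancel, ← hsum]
      rw [← hsum, hq'] at key
      nlinarith
    rw [e, card_insert_of_notMem hj, pow_succ, pow_succ]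
    calc q ^ #J * q * #{χ : V → C | A χ ∧ ¬ P j χ}
        = q ^ #J * (q * #{χ : V → C | A χ ∧ ¬ P j χ}) := by ring
      _ ≤ q ^ #J * ((q - 1) * #{χ : V → C | A χ}) := Nat.mul_le_mul_left _ h7
      _ = (q - 1) * (q ^ #J * #{χ : V → C | A χ}) := by ring
      _ ≤ (q - 1) * ((q - 1) ^ #J * Fintype.card C ^ Fintype.card V) := Nat.mul_le_mul_left _ ih'
      _ = _ := by ring

omit [Fintype U] in
/-- An injective colouring of a set can be extended to a larger set. -/
theorem exists_ext {C : Type*} [Fintype C] [DecidableEq C] (χ : U → C) (C0 : Finset U)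
    (hχ : Set.InjOn χ C0) (D : Finset U) (hd : Disjoint D C0) (hcard : #(C0 ∪ D) ≤ Fintype.card C) :
    ∃ χ' : U → C, (∀ v ∉ D, χ' v = χ v) ∧ Set.InjOn χ' (C0 ∪ D : Finset U) := by
  induction D using Finset.induction_on with
  | empty => exact ⟨χ, fun _ _ => rfl, by simpa using hχ⟩
  | insert a D ha ih =>
    rw [disjoint_insert_left] at hd
    have haC : a ∉ C0 ∪ D := by
      rw [mem_union]
      rintro (h | h)
      · exact hd.1 h
      · exact ha h
    have e : C0 ∪ insert a D = insert a (C0 ∪ D) := by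
      ext v
      simp only [mem_union, mem_insert]
      tauto
    rw [e, card_insert_of_notMem haC] at hcard
    obtain ⟨χ1, h1, h2⟩ := ih hd.2 (by omega)
    have h3 : ∃ x : C, x ∉ (C0 ∪ D).image χ1 := by
      by_contra hcon
      push Not at hcon
      have h4 : (univ : Finset C) ⊆ (C0 ∪ D).image χ1 := fun x _ => hcon x
      have h5 := card_le_card h4
      have h6 := card_image_le (s := C0 ∪ D) (f := χ1)
      rw [card_univ] at h5
      omega
    obtain ⟨x, hx⟩ := h3
    refine ⟨Function.update χ1 a x, ?_, ?_⟩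
    · intro v hv
      rw [mem_insert, not_or] at hv
      rw [Function.update_of_ne hv.1]
      exact h1 v hv.2
    · rw [e]
      intro u hu v hv huv
      rw [mem_coe, mem_insert] at hu hv
      have h7 : ∀ y ∈ C0 ∪ D, y ≠ a := fun y hy h => haC (h ▸ hy)
      have h8 : ∀ y ∈ C0 ∪ D, χ1 y ≠ x := fun y hy h => hx (mem_image.2 ⟨y, hy, h⟩)
      rcases hu with rfl | hu <;> rcases hv with rfl | hv
      · rfl
      · rw [Function.update_self, Function.update_of_ne (h7 v hv)] at huv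
        exact absurd huv.symm (h8 v hv)
      · rw [Function.update_self, Function.update_of_ne (h7 u hu)] at huv
        exact absurd huv (h8 u hu)
      · rw [Function.update_of_ne (h7 v hv), Function.update_of_ne (h7 u hu)] at huv
        exact h2 hu hv huv

omit [Fintype U] in
theorem exists_ext' {C : Type*} [Fintype C] [DecidableEq C] (χ : U → C) (C0 T : Finset U)
    (hχ : Set.InjOn χ C0) (h : C0 ⊆ T) (hcard : #T ≤ Fintype.card C) :
    ∃ χ' : U → C, (∀ v ∉ T \ C0, χ' v = χ v) ∧ Set.InjOn χ' T := by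
  have e : C0 ∪ (T \ C0) = T := union_sdiff_of_subset h
  have h1 := exists_ext χ C0 hχ (T \ C0) sdiff_disjoint (by rw [e]; exact hcard)
  rw [e] at h1
  exact h1

omit [Fintype U] in
/-- All pairs but one can be separated. -/
theorem exists_pat {C : Type*} [Fintype C] [DecidableEq C] (χ : U → C) (C0 S : Finset U)
    (hχ : Set.InjOn χ C0) (h : C0 ⊆ S) (hcard : #S = Fintype.card C + 1) {a b : U} (ha : a ∈ S)
    (hb : b ∈ S) (hab : a ≠ b) (hC : ¬ (a ∈ C0 ∧ b ∈ C0)) :
    ∃ χ' : U → C, (∀ v ∉ S \ C0, χ' v = χ v) ∧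
      ∀ x ∈ S, ∀ y ∈ S, x ≠ y → χ' x = χ' y → (x = a ∧ y = b) ∨ (x = b ∧ y = a) := by
  wlog hbC : b ∉ C0 generalizing a b
  · have haC : a ∉ C0 := fun h1 => hC ⟨h1, not_not.1 hbC⟩
    obtain ⟨χ', h1, h2⟩ := this hb ha hab.symm (fun h1 => hC ⟨h1.2, h1.1⟩) haC
    exact ⟨χ', h1, fun x hx y hy hxy hχ' => (h2 x hx y hy hxy hχ').symm⟩
  have hsub : C0 ⊆ S.erase b := fun v hv => mem_erase.2 ⟨fun h1 => hbC (h1 ▸ hv), h hv⟩
  obtain ⟨χ1, h1, h2⟩ := exists_ext' χ C0 (S.erase b) hχ hsub (by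
    rw [card_erase_of_mem hb, hcard]; omega)
  refine ⟨Function.update χ1 b (χ1 a), ?_, ?_⟩
  · intro v hv
    rw [mem_sdiff, not_and, not_not] at hv
    have hvb : v ≠ b := fun h3 => hbC (h3 ▸ hv (h3 ▸ hb))
    rw [Function.update_of_ne hvb]
    apply h1
    rw [mem_sdiff, not_and, not_not]
    exact fun h3 => hv (mem_of_mem_erase h3)
  · intro x hx y hy hxy hχ'
    have haE : a ∈ S.erase b := mem_erase.2 ⟨hab, ha⟩
    by_cases hxb : x = b
    · subst hxb
      rw [Function.update_self, Function.update_of_ne hxy.symm] at hχ'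
      exact Or.inr ⟨rfl, (h2 haE (mem_erase.2 ⟨hxy.symm, hy⟩) hχ').symm⟩
    · by_cases hyb : y = b
      · subst hyb
        rw [Function.update_self, Function.update_of_ne hxb] at hχ'
        exact Or.inl ⟨h2 (mem_erase.2 ⟨hxb, hx⟩) haE hχ', rfl⟩
      · rw [Function.update_of_ne hxb, Function.update_of_ne hyb] at hχ'
        exact absurd (h2 (mem_erase.2 ⟨hxb, hx⟩) (mem_erase.2 ⟨hyb, hy⟩) hχ') hxy

/-- The number of cliques with `2 r` elements. -/
theorem card_cliques (H : Finset (U × U)) (r : ℕ) :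
    #{S : Finset U | #S = 2 * r ∧ ∀ a ∈ S, ∀ b ∈ S, a ≠ b → (a, b) ∈ H} ≤ #H ^ r := by
  classical
  induction r with
  | zero =>
    have h1 : ({S : Finset U | #S = 2 * 0 ∧ ∀ a ∈ S, ∀ b ∈ S, a ≠ b → (a, b) ∈ H} :
        Finset (Finset U)) ⊆ {∅} := by
      intro S hS
      rw [mem_filter] at hS
      rw [mem_singleton, ← card_eq_zero]
      omega
    simpa using card_le_card h1
  | succ r ih =>
    have h1 : ({S : Finset U | #S = 2 * (r + 1) ∧ ∀ a ∈ S, ∀ b ∈ S, a ≠ b → (a, b) ∈ H} :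
        Finset (Finset U)) ⊆ (H ×ˢ ({S : Finset U | #S = 2 * r ∧ ∀ a ∈ S, ∀ b ∈ S, a ≠ b →
          (a, b) ∈ H} : Finset (Finset U))).image (fun p => insert p.1.1 (insert p.1.2 p.2)) := by
      intro S hS
      rw [mem_filter] at hS
      obtain ⟨-, h2, h3⟩ := hS
      obtain ⟨a, ha, b, hb, hab⟩ := one_lt_card.1 (show 1 < #S by omega)
      have hb' : b ∈ S.erase a := mem_erase.2 ⟨hab.symm, hb⟩
      refine mem_image.2 ⟨((a, b), (S.erase a).erase b), mem_product.2 ⟨h3 a ha b hb hab,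
        mem_filter.2 ⟨mem_univ _, ?_, ?_⟩⟩, ?_⟩
      · rw [card_erase_of_mem hb', card_erase_of_mem ha]
        omega
      · intro x hx y hy hxy
        exact h3 x (mem_of_mem_erase (mem_of_mem_erase hx)) y
          (mem_of_mem_erase (mem_of_mem_erase hy)) hxy
      · simp only
        rw [insert_erase hb', insert_erase ha]
    calc _ ≤ _ := (card_le_card h1).trans card_image_le
      _ = #H * _ := card_product _ _
      _ ≤ #H * #H ^ r := Nat.mul_le_mul_left _ ih
      _ = _ := by ring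

end Pool.Agent.L5helper51.WK
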